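import Pool.Agent.H860.WE.Model

/-!
# Weil-étale motivic cohomology: the statement for bundled groups
-/

set_option linter.unusedSectionVars false

open TensorProduct Polynomial

namespace Pool.Agent.H860.WE.Cat

noncomputable section

/-- abelian groups -/
abbrev Ab := AddCommGrpCat.{0}

/-- homomorphisms of abelian groups -/
def Hom (A B : Ab) : Type := A →+ B

def Hom.ap {A B : Ab} (f : Hom A B) (x : A) : B := (show A →+ B from f) x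

/-- bilinear maps `A × B → ℤ` -/
def Form (A B : Ab) : Type := A →+ B →+ ℤ

def Form.ap {A B : Ab} (f : Form A B) (x : A) (y : B) : ℤ := (show A →+ B →+ ℤ from f) x y

/-- torsion elements -/
def Tor {A : Ab} (x : A) : Prop := IsTor x

/-- The kernel is a torsion group. -/
def TorKer {A B : Ab} (f : Hom A B) : Prop := ∀ x, f.ap x = 0 → Tor x

/-- Each element of `S` has a nonzero multiple in the image of `f`. -/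
def TorOnto {A B : Ab} (f : Hom A B) (S : Set B) : Prop :=
  ∀ y ∈ S, ∃ N : ℕ, N ≠ 0 ∧ ∃ x, f.ap x = N • y

section scalars

variable (ℓ : ℕ) [Fact ℓ.Prime]

/-- modules over the ring of `ℓ`-adic integers -/
abbrev ZMd := ModuleCat.{0} ℤ_[ℓ]

/-- vector spaces over the field of `ℓ`-adic numbers -/
abbrev QMd := ModuleCat.{0} ℚ_[ℓ]

variable {ℓ}

/-- the abelian group of a module -/
def ZMd.ab (H : ZMd ℓ) : Ab := AddCommGrpCat.of H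

def QMd.ab (V : QMd ℓ) : Ab := AddCommGrpCat.of V

/-- linear maps -/
def Lin (V W : QMd ℓ) : Type := V →ₗ[ℚ_[ℓ]] W

def Lin.ap {V W : QMd ℓ} (f : Lin V W) (v : V) : W := (show V →ₗ[ℚ_[ℓ]] W from f) v

/-- bilinear forms -/
def Bil (V W : QMd ℓ) : Type := V →ₗ[ℚ_[ℓ]] W →ₗ[ℚ_[ℓ]] ℚ_[ℓ]

def Bil.ap {V W : QMd ℓ} (f : Bil V W) (v : V) (w : W) : ℚ_[ℓ] :=
  (show V →ₗ[ℚ_[ℓ]] W →ₗ[ℚ_[ℓ]] ℚ_[ℓ] from f) v w

/-- Compatibility with the scalars. -/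
def IsLin {H : ZMd ℓ} {V : QMd ℓ} (f : Hom H.ab V.ab) : Prop :=
  ∀ (z : ℤ_[ℓ]) (h : H), f.ap (z • h : H) = ((z : ℚ_[ℓ]) • (show V from f.ap h) : V)

/-- the coinvariants of an endomorphism -/
def Coinv {V : QMd ℓ} (F : Lin V V) : QMd ℓ :=
  ModuleCat.of ℚ_[ℓ] (V ⧸ LinearMap.range ((show Module.End ℚ_[ℓ] V from F) - 1))

def Coinv.mk {V : QMd ℓ} (F : Lin V V) (v : V) : Coinv F :=
  (Submodule.Quotient.mk v : V ⧸ LinearMap.range ((show Module.End ℚ_[ℓ] V from F) - 1))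

/-- the multiplicity of the eigenvalue one -/
def mult {V : QMd ℓ} [Module.Finite ℚ_[ℓ] V] (F : Lin V V) : ℕ :=
  (LinearMap.charpoly (show Module.End ℚ_[ℓ] V from F)).rootMultiplicity 1

/-- A lattice: a free `ℤ_ℓ`-module `Λ` with an endomorphism `f` with characteristic polynomial `P`, mapped
injectively to `V` with its endomorphism `F`, such that `H` is isomorphic to the coinvariants of `f`. -/
def Lattice (H : ZMd ℓ) {V : QMd ℓ} (F : Lin V V) (P : ℚ[X]) : Prop :=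
  ∃ (Λ : ZMd ℓ) (_ : Module.Finite ℤ_[ℓ] Λ) (_ : Module.Free ℤ_[ℓ] Λ)
    (f : Module.End ℤ_[ℓ] Λ) (ι : Hom Λ.ab V.ab),
    Function.Injective ι.ap ∧ IsLin ι ∧ (∀ x : Λ, ι.ap (f x) = F.ap (ι.ap x)) ∧
    f.charpoly.map (algebraMap ℤ_[ℓ] ℚ_[ℓ]) = P.map (algebraMap ℚ ℚ_[ℓ]) ∧
    Nonempty (H ≃+ Λ ⧸ LinearMap.range (f - 1))

/-- The long exact sequences for the multiplication by `ℓ`. -/
def HasKummer (ℓ : ℕ) (T : Ab) {A A' H H' : Ab} (κ : Hom A H) (κ' : Hom A' H') : Prop :=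
  Nonempty (Kummer ℓ T (show A →+ H from κ) (show A' →+ H' from κ'))

/-- `A ⊗ ℤ_ℓ → H` is bijective. -/
def IsIso {A : Ab} {H : ZMd ℓ} (κ : Hom A H.ab) : Prop :=
  Function.Bijective (comp ℓ (show A →+ H from κ))

/-- `A ⊗ ℚ_ℓ → H ⊗ ℚ_ℓ` is bijective. -/
def IsRatIso {A : Ab} {H : ZMd ℓ} (κ : Hom A H.ab) : Prop :=
  RatIso ℓ (show A →+ H from κ)

/-- the subspace spanned by a set -/
def Spans {V : QMd ℓ} (S : Set V) : Set V := {v | v ∈ Submodule.span ℚ_[ℓ] S}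

end scalars

/-- The groups `M n i = H^i_W(X, ℤ(n))`, `H ℓ n i = H^i(X, ℤ_ℓ(n))`, `T ℓ n i = H^i(X, ℤ/ℓ(n))`,
`V ℓ n = H^(2n)(X̄, ℚ_ℓ(n))`. -/
structure Groups where
  M : ℕ → ℤ → Ab
  H : ∀ (ℓ : ℕ) [Fact ℓ.Prime], ℕ → ℤ → ZMd ℓ
  T : ℕ → ℕ → ℤ → Ab
  V : ∀ (ℓ : ℕ) [Fact ℓ.Prime], ℕ → QMd ℓ

/-- The comparison maps `κ`, the product `e` with the canonical class in `H^1_W(k, ℤ)`, the Frobenius
endomorphism `F` of `V ℓ n`, the map `α : H^(2n)(X, ℤ_ℓ(n)) → V ℓ n`, the map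
`γ : H^(2n+1)(X, ℤ_ℓ(n)) → (V ℓ n)_F`, Poincaré duality `B`, the product `deg` of
`H^(2n)_W(X, ℤ(n))` and `H^(2n'+1)_W(X, ℤ(n'))` with values in `ℤ`, and the powers `lefM`, `lefV` of the
Lefschetz operator. -/
structure Maps (X : Groups) where
  κ : ∀ (ℓ : ℕ) [Fact ℓ.Prime] (n : ℕ) (i : ℤ), Hom (X.M n i) (X.H ℓ n i).ab
  e : ∀ (n : ℕ) (i : ℤ), Hom (X.M n i) (X.M n (i + 1))
  F : ∀ (ℓ : ℕ) [Fact ℓ.Prime] (n : ℕ), Lin (X.V ℓ n) (X.V ℓ n)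
  α : ∀ (ℓ : ℕ) [Fact ℓ.Prime] (n : ℕ), Hom (X.H ℓ n (2 * n)).ab (X.V ℓ n).ab
  γ : ∀ (ℓ : ℕ) [Fact ℓ.Prime] (n : ℕ), Hom (X.H ℓ n (2 * n + 1)).ab (Coinv (F ℓ n)).ab
  B : ∀ (ℓ : ℕ) [Fact ℓ.Prime] (n n' : ℕ), Bil (X.V ℓ n) (X.V ℓ n')
  deg : ∀ n n' : ℕ, Form (X.M n (2 * n)) (X.M n' (2 * n' + 1))
  lefM : ∀ n n' : ℕ, Hom (X.M n (2 * n)) (X.M n' (2 * n'))
  lefV : ∀ (ℓ : ℕ) [Fact ℓ.Prime] (n n' : ℕ), Lin (X.V ℓ n) (X.V ℓ n')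

variable {X : Groups}

/-- Multiplication by `ℓ` gives long exact sequences, and the complex `(H^*_W(X, ℚ(n)), e)` is exact. -/
structure IsMotivic (m : Maps X) : Prop where
  fin : ∀ (ℓ : ℕ) [Fact ℓ.Prime] n i, Module.Finite ℤ_[ℓ] (X.H ℓ n i)
  kummer : ∀ (ℓ : ℕ) [Fact ℓ.Prime] (n : ℕ) (i : ℤ),
    HasKummer ℓ (X.T ℓ n i) (m.κ ℓ n i) (m.κ ℓ n (i + 1))
  exact : ∀ (n : ℕ) (i : ℤ), TorOnto (m.e n i) {x | Tor ((m.e n (i + 1)).ap x)}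

/-- Frobenius and the invariants. -/
structure IsEven (P : ℕ → ℚ[X]) (m : Maps X) : Prop where
  fin : ∀ (ℓ : ℕ) [Fact ℓ.Prime] n, FiniteDimensional ℚ_[ℓ] (X.V ℓ n)
  monic : ∀ n, (P n).Monic
  mult : ∀ (ℓ : ℕ) [Fact ℓ.Prime] (n : ℕ), mult (m.F ℓ n) = (P n).rootMultiplicity 1
  smul : ∀ (ℓ : ℕ) [Fact ℓ.Prime] (n : ℕ), IsLin (m.α ℓ n)
  inv : ∀ (ℓ : ℕ) [Fact ℓ.Prime] (n : ℕ) (h : (X.H ℓ n (2 * n)).ab),
    (m.F ℓ n).ap ((m.α ℓ n).ap h) = (m.α ℓ n).ap h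
  tor : ∀ (ℓ : ℕ) [Fact ℓ.Prime] (n : ℕ), TorKer (m.α ℓ n)
  surj : ∀ (ℓ : ℕ) [Fact ℓ.Prime] (n : ℕ), TorOnto (m.α ℓ n) {v | (m.F ℓ n).ap v = v}

/-- The coinvariants. -/
structure IsOdd (m : Maps X) : Prop where
  smul : ∀ (ℓ : ℕ) [Fact ℓ.Prime] (n : ℕ), IsLin (m.γ ℓ n)
  tor : ∀ (ℓ : ℕ) [Fact ℓ.Prime] (n : ℕ), TorKer (m.γ ℓ n)
  surj : ∀ (ℓ : ℕ) [Fact ℓ.Prime] (n : ℕ), TorOnto (m.γ ℓ n) Set.univ
  comp : ∀ (ℓ : ℕ) [Fact ℓ.Prime] (n : ℕ) (x : X.M n (2 * n)),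
    (m.γ ℓ n).ap ((m.κ ℓ n _).ap ((m.e n (2 * n)).ap x)) =
      Coinv.mk (m.F ℓ n) ((m.α ℓ n).ap ((m.κ ℓ n _).ap x))

/-- Consequences of the theory of weights and of Gabber's theorem. -/
structure IsWeights (P : ℕ → ℚ[X]) (m : Maps X) : Prop where
  pure : ∀ (ℓ : ℕ) [Fact ℓ.Prime] (n : ℕ) (i : ℤ), i ≠ 2 * n → i ≠ 2 * n + 1 →
    ∀ h : (X.H ℓ n i).ab, Tor h
  zero : ∀ (n : ℕ) (i : ℤ), i ≠ 2 * n → i ≠ 2 * n + 1 →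
    {ℓ : ℕ | ∃ _ : Fact ℓ.Prime, ∃ h : (X.H ℓ n i).ab, h ≠ 0}.Finite
  even : ∀ n : ℕ, {ℓ : ℕ | ∃ _ : Fact ℓ.Prime,
    ∃ h : (X.H ℓ n (2 * n)).ab, h ≠ 0 ∧ Tor h}.Finite
  odd : ∀ n : ℕ, {ℓ : ℕ | ∃ _ : Fact ℓ.Prime,
    ¬ Lattice (X.H ℓ n (2 * n + 1)) (m.F ℓ n) (P n)}.Finite

/-- Poincaré duality and its compatibility with the products. -/
structure IsDuality (d : ℕ) (m : Maps X) : Prop where
  inv : ∀ (ℓ : ℕ) [Fact ℓ.Prime] (n n' : ℕ), n + n' = d → ∀ v w,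
    (m.B ℓ n n').ap ((m.F ℓ n).ap v) ((m.F ℓ n').ap w) = (m.B ℓ n n').ap v w
  nondeg : ∀ (ℓ : ℕ) [Fact ℓ.Prime] (n n' : ℕ), n + n' = d → ∀ v,
    (∀ w, (m.B ℓ n n').ap v w = 0) → v = 0
  comm : ∀ (ℓ : ℕ) [Fact ℓ.Prime] (n n' : ℕ), n + n' = d → ∀ v w,
    (m.B ℓ n n').ap v w = (m.B ℓ n' n).ap w v
  deg : ∀ (ℓ : ℕ) [Fact ℓ.Prime] (n n' : ℕ), n + n' = d → ∀ (x : X.M n (2 * n))
    (y : X.M n' (2 * n' + 1)) (w : X.V ℓ n'),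
    (m.γ ℓ n').ap ((m.κ ℓ n' _).ap y) = Coinv.mk (m.F ℓ n') w →
      ((m.deg n n').ap x y : ℚ_[ℓ]) = (m.B ℓ n n').ap ((m.α ℓ n).ap ((m.κ ℓ n _).ap x)) w

/-- the classes in `V ℓ n` of the elements of `H^(2n)_W(X, ℤ(n))` -/
def classes (m : Maps X) (ℓ : ℕ) [Fact ℓ.Prime] (n : ℕ) : Set (X.V ℓ n) :=
  Set.range fun x => (m.α ℓ n).ap ((m.κ ℓ n _).ap x)

/-- Tate's conjecture in codimension `n` for the prime `ℓ`: the invariants of `H^(2n)(X̄, ℚ_ℓ(n))` are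
spanned by the image of `H^(2n)_W(X, ℤ(n))` (that is, by the classes of cycles of codimension `n`). -/
def Tate (m : Maps X) (ℓ : ℕ) [Fact ℓ.Prime] (n : ℕ) : Prop :=
  ∀ v, (m.F ℓ n).ap v = v → v ∈ Spans (classes m ℓ n)

/-- The cohomology vanishes in codimension `n > d`, Tate's conjecture is true in codimension zero, and
the hard Lefschetz theorem is true. -/
structure IsLefschetz (d : ℕ) (m : Maps X) : Prop where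
  vanish : ∀ (ℓ : ℕ) [Fact ℓ.Prime] (n : ℕ), d < n → Subsingleton (X.V ℓ n)
  unit : ∀ (ℓ : ℕ) [Fact ℓ.Prime], Tate m ℓ 0
  cl : ∀ (ℓ : ℕ) [Fact ℓ.Prime] (n n' : ℕ), n + n' = d → n ≤ n' → ∀ x : X.M n (2 * n),
    (m.α ℓ n').ap ((m.κ ℓ n' _).ap ((m.lefM n n').ap x)) =
      (m.lefV ℓ n n').ap ((m.α ℓ n).ap ((m.κ ℓ n _).ap x))
  inv : ∀ (ℓ : ℕ) [Fact ℓ.Prime] (n n' : ℕ), n + n' = d → n ≤ n' → ∀ v,
    (m.lefV ℓ n n').ap ((m.F ℓ n).ap v) = (m.F ℓ n').ap ((m.lefV ℓ n n').ap v)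
  bij : ∀ (ℓ : ℕ) [Fact ℓ.Prime] (n n' : ℕ), n + n' = d → n ≤ n' →
    Function.Bijective (m.lefV ℓ n n').ap

/-- `L^n(X)`: the groups `H^i_W(X, ℤ(n))` are finitely generated. -/
def L (X : Groups) (n : ℕ) : Prop := ∀ i, AddGroup.FG (X.M n i)

/-- `K^n(X)`: the maps `H^i_W(X, ℤ(n)) ⊗ ℤ_ℓ → H^i(X, ℤ_ℓ(n))` are isomorphisms for all `ℓ` and `i`. -/
def K (m : Maps X) (n : ℕ) : Prop :=
  ∀ (ℓ : ℕ) [Fact ℓ.Prime] (i : ℤ), IsIso (m.κ ℓ n i)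

/-- The maps `H^i_W(X, ℤ(n)) ⊗ ℚ_ℓ → H^i(X, ℚ_ℓ(n))` are isomorphisms for all `i`, for the prime `ℓ`. -/
def KQ (m : Maps X) (ℓ : ℕ) [Fact ℓ.Prime] (n : ℕ) : Prop :=
  ∀ i : ℤ, IsRatIso (m.κ ℓ n i)

/-- Elements of `H^(2n)_W(X, ℤ(n))` which are numerically equivalent to zero are torsion elements. -/
def Num (m : Maps X) (n n' : ℕ) : Prop :=
  ∀ x : X.M n (2 * n), (∀ x' : X.M n' (2 * n'),
    (m.deg n n').ap x ((m.e n' (2 * n')).ap x') = 0) → Tor x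

end

end Pool.Agent.H860.WE.Cat
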