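import Pool.Agent.H860.WE.Cat

set_option linter.unusedSectionVars false

open TensorProduct Polynomial

namespace Pool.Agent.H860.WE.Cat

variable {X : Groups} {m : Maps X} {d : ℕ} {P : ℕ → ℚ[X]}

/-- the map `e` -/
noncomputable def eM (m : Maps X) (n : ℕ) (i j : ℤ) (h : i + 1 = j) : X.M n i →+ X.M n j := by
  subst h
  exact m.e n i

theorem h_motivic (h1 : IsMotivic m) : WE.IsMotivic (M := fun n i => X.M n i)
    (H := fun ℓ _ n i => X.H ℓ n i) (fun ℓ _ n i => X.T ℓ n i) (fun ℓ _ n i => m.κ ℓ n i)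
    (eM m) where
  fin := h1.fin
  kummer ℓ _ n i j h := by
    subst h
    exact h1.kummer ℓ n i
  exact n i j l h h' x hx := by
    subst h
    subst h'
    exact h1.exact n i x hx

theorem h_even (h2 : IsEven P m) : WE.IsFrob (H := fun ℓ _ n i => X.H ℓ n i)
    (V := fun ℓ _ n => X.V ℓ n) (fun ℓ _ n => m.F ℓ n) P (fun ℓ _ n => m.α ℓ n) where
  fin := h2.fin
  monic := h2.monic
  mult := h2.mult
  smul := h2.smul
  inv := h2.inv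
  tor := h2.tor
  surj ℓ _ n v hv := h2.surj ℓ n v hv

theorem h_odd (h3 : IsOdd m) : WE.IsOdd (M := fun n i => X.M n i) (H := fun ℓ _ n i => X.H ℓ n i)
    (V := fun ℓ _ n => X.V ℓ n) (fun ℓ _ n i => m.κ ℓ n i) (eM m) (fun ℓ _ n => m.F ℓ n)
    (fun ℓ _ n => m.α ℓ n) (fun ℓ _ n => m.γ ℓ n) where
  smul := h3.smul
  tor := h3.tor
  surj ℓ _ n w := h3.surj ℓ n w (Set.mem_univ _)
  comp := h3.comp

theorem h_weights (h4 : IsWeights P m) : WE.IsWeights (V := fun ℓ _ n => X.V ℓ n)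
    (fun ℓ _ n => m.F ℓ n) P (fun ℓ _ n i => X.H ℓ n i) where
  pure := h4.pure
  zero := h4.zero
  even := h4.even
  odd n := by
    refine (h4.odd n).subset ?_
    rintro ℓ ⟨hℓ, h⟩
    refine ⟨hℓ, fun h' => h ?_⟩
    obtain ⟨Λ, i1, i2, f, ι, k1, k2, k3, k4, k5⟩ := h'
    exact ⟨Λ, inferInstance, inferInstance, i1, i2, f, ι, k1, k2, k3, k4, k5⟩

theorem h_duality (h5 : IsDuality d m) : WE.IsDuality (M := fun n i => X.M n i)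
    (H := fun ℓ _ n i => X.H ℓ n i) (V := fun ℓ _ n => X.V ℓ n) d (fun ℓ _ n i => m.κ ℓ n i)
    (fun ℓ _ n => m.F ℓ n) (fun ℓ _ n => m.α ℓ n) (fun ℓ _ n => m.γ ℓ n)
    (fun ℓ _ n n' => m.B ℓ n n') (fun n n' => m.deg n n') where
  inv := h5.inv
  nondeg := h5.nondeg
  comm := h5.comm
  deg := h5.deg

theorem h_lefschetz (h6 : IsLefschetz d m) : WE.IsLefschetz (M := fun n i => X.M n i)
    (H := fun ℓ _ n i => X.H ℓ n i) (V := fun ℓ _ n => X.V ℓ n) d (fun ℓ _ n i => m.κ ℓ n i)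
    (fun ℓ _ n => m.F ℓ n) (fun ℓ _ n => m.α ℓ n) (fun n n' => m.lefM n n')
    (fun ℓ _ n n' => m.lefV ℓ n n') where
  vanish := h6.vanish
  unit := h6.unit
  cl := h6.cl
  inv := h6.inv
  bij := h6.bij

theorem mainCat (h1 : IsMotivic m) (h2 : IsEven P m) (h3 : IsOdd m) (h4 : IsWeights P m)
    (h5 : IsDuality d m) (h6 : IsLefschetz d m) :
    (∀ n : ℕ, 2 * n ≤ d ∨ d ≤ n → (L X n ↔ K m n) ∧
      (L X n ↔ ∃ (ℓ : ℕ) (_ : Fact ℓ.Prime), KQ m ℓ n)) ∧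
    (∀ n n' : ℕ, n + n' = d → ∀ (ℓ : ℕ) [Fact ℓ.Prime], KQ m ℓ n →
      Tate m ℓ n' ∨ Num m n n' → L X n) ∧
    ((∀ n, L X n) ↔ ∀ n, ∃ (ℓ : ℕ) (_ : Fact ℓ.Prime), KQ m ℓ n) := by
  obtain ⟨m1, m2, m3⟩ := main (sys (h_motivic h1) (h_even h2) (h_odd h3) (h_weights h4)
    (h_duality h5) (h_lefschetz h6))
  have hK : ∀ n, (sys (h_motivic h1) (h_even h2) (h_odd h3) (h_weights h4)
    (h_duality h5) (h_lefschetz h6)).K n ↔ K m n := fun n =>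
    ⟨fun h ℓ hℓ i => h ⟨ℓ, hℓ.out⟩ i, fun h ℓ i => h ℓ i⟩
  have hKQ : ∀ n, (∃ ℓ : Nat.Primes, (sys (h_motivic h1) (h_even h2) (h_odd h3) (h_weights h4)
    (h_duality h5) (h_lefschetz h6)).KQ ℓ n) ↔
      ∃ (ℓ : ℕ) (_ : Fact ℓ.Prime), KQ m ℓ n := fun n =>
    ⟨fun ⟨ℓ, h⟩ => ⟨ℓ, ⟨ℓ.2⟩, h⟩, fun ⟨ℓ, hℓ, h⟩ => ⟨⟨ℓ, hℓ.out⟩, h⟩⟩
  refine ⟨fun n hn => ⟨(m1 n hn).1.trans (hK n), (m1 n hn).2.trans (hKQ n)⟩, ?_, ?_⟩
  · intro n n' hd ℓ hℓ h hT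
    exact m2 n n' hd ⟨ℓ, hℓ.out⟩ h hT
  · constructor
    · intro h n
      exact (hKQ n).1 (m3.1 h n)
    · intro h
      exact m3.2 fun n => (hKQ n).2 (h n)

end Pool.Agent.H860.WE.Cat
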