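import Mathlib

/-!
# Linear algebra: the eigenvalue one
-/

set_option linter.unusedSectionVars false

open Module Polynomial

namespace Pool.Agent.H860.WE

section

variable {K V V' : Type*} [Field K] [AddCommGroup V] [Module K V] [FiniteDimensional K V]
variable [AddCommGroup V'] [Module K V'] [FiniteDimensional K V']

lemma disjoint_of_sup (N : End K V) (h : LinearMap.ker N ⊔ LinearMap.range N = ⊤) :
    LinearMap.ker N ⊓ LinearMap.range N = ⊥ := by
  have h1 := Submodule.finrank_sup_add_finrank_inf_eq (LinearMap.ker N) (LinearMap.range N)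
  have h2 := LinearMap.finrank_range_add_finrank_ker N
  rw [h, finrank_top] at h1
  apply Submodule.finrank_eq_zero.1
  omega

lemma sup_of_disjoint (N : End K V) (h : LinearMap.ker N ⊓ LinearMap.range N = ⊥) :
    LinearMap.ker N ⊔ LinearMap.range N = ⊤ := by
  have h1 := Submodule.finrank_sup_add_finrank_inf_eq (LinearMap.ker N) (LinearMap.range N)
  have h2 := LinearMap.finrank_range_add_finrank_ker N
  rw [h, finrank_bot] at h1
  apply Submodule.eq_top_of_finrank_eq
  omega

lemma ker_of_disjoint (N : End K V) (h : LinearMap.ker N ⊓ LinearMap.range N = ⊥) (k : ℕ) (v : V)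
    (hv : (N ^ (k + 1)) v = 0) : N v = 0 := by
  induction k generalizing v with
  | zero => simpa using hv
  | succ k ih =>
    have h1 : (N ^ (k + 1)) (N v) = 0 := by rw [← Module.End.mul_apply, ← pow_succ]; exact hv
    have h2 := ih _ h1
    have : N v ∈ LinearMap.ker N ⊓ LinearMap.range N := ⟨h2, v, rfl⟩
    rwa [h, Submodule.mem_bot] at this

lemma finrank_ker_of_sup (F : End K V)
    (h : LinearMap.ker (F - 1) ⊔ LinearMap.range (F - 1) = ⊤) :
    finrank K (LinearMap.ker (F - 1)) = F.charpoly.rootMultiplicity 1 := by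
  rw [← LinearMap.finrank_maxGenEigenspace_eq]
  have : LinearMap.ker (F - 1) = F.maxGenEigenspace 1 := by
    apply le_antisymm
    · intro v hv
      rw [Module.End.mem_maxGenEigenspace]
      exact ⟨1, by simpa using hv⟩
    · intro v hv
      rw [Module.End.mem_maxGenEigenspace] at hv
      obtain ⟨k, hk⟩ := hv
      apply ker_of_disjoint (F - 1) (disjoint_of_sup _ h) k
      rw [pow_succ', Module.End.mul_apply]
      rw [one_smul] at hk
      rw [hk, map_zero]
  rw [this]

lemma sup_of_finrank_ker (F : End K V)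
    (h : F.charpoly.rootMultiplicity 1 ≤ finrank K (LinearMap.ker (F - 1))) :
    LinearMap.ker (F - 1) ⊔ LinearMap.range (F - 1) = ⊤ ∧
      finrank K (LinearMap.ker (F - 1)) = F.charpoly.rootMultiplicity 1 := by
  rw [← LinearMap.finrank_maxGenEigenspace_eq] at h
  have hle : LinearMap.ker (F - 1) ≤ F.maxGenEigenspace 1 := by
    intro v hv
    rw [Module.End.mem_maxGenEigenspace]
    exact ⟨1, by simpa using hv⟩
  have heq := Submodule.eq_of_le_of_finrank_le hle h
  refine ⟨?_, by rw [← LinearMap.finrank_maxGenEigenspace_eq, heq]⟩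
  apply sup_of_disjoint
  rw [eq_bot_iff]
  rintro _ ⟨h1, v, rfl⟩
  have h2 : v ∈ F.maxGenEigenspace 1 := by
    rw [Module.End.mem_maxGenEigenspace]
    refine ⟨2, ?_⟩
    rw [pow_two, Module.End.mul_apply, one_smul]
    exact h1
  rw [← heq] at h2
  exact h2

/-- A nondegenerate pairing that is invariant under the endomorphisms: if one is a semisimple eigenvalue
on the left, then the left and the right invariants are in duality. -/
lemma pairing (F : End K V) (F' : End K V') (B : V →ₗ[K] V' →ₗ[K] K)
    (hF : ∀ v w, B (F v) (F' w) = B v w) (hl : ∀ v, (∀ w, B v w = 0) → v = 0)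
    (hr : ∀ w, (∀ v, B v w = 0) → w = 0)
    (h : LinearMap.ker (F - 1) ⊔ LinearMap.range (F - 1) = ⊤) (v : V) (hv : F v = v)
    (h0 : ∀ w, F' w = w → B v w = 0) : v = 0 := by
  have a1 : ∀ v w, F v = v → B v ((F' - 1) w) = 0 := by
    intro v w hv
    rw [LinearMap.sub_apply, map_sub, Module.End.one_apply]
    nth_rw 1 [← hv]
    rw [hF, sub_self]
  have a2 : ∀ v w, F' w = w → B ((F - 1) v) w = 0 := by
    intro v w hw
    rw [LinearMap.sub_apply, map_sub, Module.End.one_apply, LinearMap.sub_apply]
    nth_rw 1 [← hw]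
    rw [hF, sub_self]
  have h' : LinearMap.ker (F' - 1) ⊔ LinearMap.range (F' - 1) = ⊤ := by
    apply sup_of_disjoint
    rw [eq_bot_iff]
    rintro _ ⟨h1, w, rfl⟩
    have h1 : F' ((F' - 1) w) = (F' - 1) w := by
      have h1 : (F' - 1) ((F' - 1) w) = 0 := h1
      rwa [LinearMap.sub_apply, sub_eq_zero, Module.End.one_apply] at h1
    rw [Submodule.mem_bot]
    apply hr
    intro v
    have : v ∈ LinearMap.ker (F - 1) ⊔ LinearMap.range (F - 1) := by rw [h]; trivial
    obtain ⟨a, ha, _, ⟨b, rfl⟩, rfl⟩ := Submodule.mem_sup.1 this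
    have ha : F a = a := by
      have ha : (F - 1) a = 0 := ha
      rwa [LinearMap.sub_apply, sub_eq_zero, Module.End.one_apply] at ha
    rw [map_add, LinearMap.add_apply, a1 a w ha, a2 b _ h1, add_zero]
  apply hl
  intro w
  have : w ∈ LinearMap.ker (F' - 1) ⊔ LinearMap.range (F' - 1) := by rw [h']; trivial
  obtain ⟨a, ha, _, ⟨b, rfl⟩, rfl⟩ := Submodule.mem_sup.1 this
  have ha : F' a = a := by
    have ha : (F' - 1) a = 0 := ha
    rwa [LinearMap.sub_apply, sub_eq_zero, Module.End.one_apply] at ha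
  rw [map_add, h0 a ha, a1 v b hv, add_zero]

end

section lattice

variable {R Λ : Type*} [CommRing R] [AddCommGroup Λ] [Module R Λ]

/-- If `N` is annihilated by `T ^ m Q(T)` with `Q(0)` a unit, and `N² y = 0` implies `N y = 0`, then
the cokernel of `N` has no `k`-torsion if `Λ` has none. -/
lemma coker_torsionfree (N : End R Λ) (m : ℕ) (u : Rˣ) (S : End R Λ) (hS : N * S = S * N)
    (h : N ^ m * (algebraMap R _ (u : R) + N * S) = 0) (hss : ∀ y, N (N y) = 0 → N y = 0)
    (k : R) (hk : ∀ y : Λ, k • y = 0 → y = 0) (y : Λ) (hy : ∃ z, k • y = N z) : ∃ z, y = N z := by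
  have hss' : ∀ (j : ℕ) y, (N ^ j) y = 0 → N y = 0 := by
    intro j
    induction j with
    | zero => intro y hy; rw [pow_zero, Module.End.one_apply] at hy; rw [hy, map_zero]
    | succ j ih =>
      intro y hy
      rw [pow_succ, Module.End.mul_apply] at hy
      exact hss _ (ih _ hy)
  have h1 : N * (algebraMap R _ (u : R) + N * S) = 0 := by
    ext y
    exact hss' m _ (by rw [← Module.End.mul_apply, h]; rfl)
  set U : End R Λ := - (algebraMap R _ (↑u⁻¹ : R) * S) with hU
  have hc : algebraMap R (End R Λ) (↑u⁻¹ : R) * N = N * algebraMap R (End R Λ) (↑u⁻¹ : R) :=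
    Algebra.commutes _ _
  have h2 : N = N * N * U := by
    have h3 : N * algebraMap R (End R Λ) (u : R) = - (N * N * S) := by
      rw [mul_add, ← mul_assoc] at h1
      exact eq_neg_of_add_eq_zero_left h1
    calc N = N * algebraMap R (End R Λ) (u : R) * algebraMap R (End R Λ) (↑u⁻¹ : R) := by
          rw [mul_assoc, ← map_mul, Units.mul_inv, map_one, mul_one]
      _ = - (N * N * S * algebraMap R (End R Λ) (↑u⁻¹ : R)) := by rw [h3, neg_mul]
      _ = N * N * U := by
        rw [hU, mul_neg, Algebra.commutes, mul_assoc (N * N)]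
  have hNU : N * U = U * N := by
    rw [hU, mul_neg, neg_mul, ← mul_assoc, ← hc, mul_assoc, hS, mul_assoc]
  obtain ⟨z, hz⟩ := hy
  have h4 : k • (y - (N * U) y) = 0 := by
    rw [smul_sub, ← map_smul, hz, ← Module.End.mul_apply, mul_assoc, ← hNU, ← mul_assoc, ← h2,
      sub_self]
  have h5 := hk _ h4
  refine ⟨U y, ?_⟩
  rw [sub_eq_zero] at h5
  exact h5

end lattice

end Pool.Agent.H860.WE
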