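import Pool.Agent.H860.WE.Kummer
import Pool.Agent.H860.WE.LinAlg

/-!
# Weil-étale motivic cohomology: the published properties which are used
-/

open TensorProduct Module Polynomial

namespace Pool.Agent.H860.WE

instance factPrimes (ℓ : Nat.Primes) : Fact (ℓ : ℕ).Prime := ⟨ℓ.2⟩

/-- Weil-étale motivic cohomology `M n i = H^i_W(X, ℤ(n))`, étale cohomology `H ℓ n i = H^i(X, ℤ_ℓ(n))`,
`T ℓ n i = H^i(X, ℤ/ℓ(n))`, `V ℓ n = H^(2n)(X̄, ℚ_ℓ(n))`. -/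
structure Groups where
  M : ℕ → ℤ → Type
  [grpM : ∀ (n : ℕ) (i : ℤ), AddCommGroup (M n i)]
  H : Nat.Primes → ℕ → ℤ → Type
  [grpH : ∀ (ℓ : Nat.Primes) (n : ℕ) (i : ℤ), AddCommGroup (H ℓ n i)]
  [modH : ∀ (ℓ : Nat.Primes) (n : ℕ) (i : ℤ), Module ℤ_[ℓ] (H ℓ n i)]
  [finH : ∀ (ℓ : Nat.Primes) (n : ℕ) (i : ℤ), Module.Finite ℤ_[ℓ] (H ℓ n i)]
  T : Nat.Primes → ℕ → ℤ → Type
  [grpT : ∀ (ℓ : Nat.Primes) (n : ℕ) (i : ℤ), AddCommGroup (T ℓ n i)]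
  V : Nat.Primes → ℕ → Type
  [grpV : ∀ (ℓ : Nat.Primes) (n : ℕ), AddCommGroup (V ℓ n)]
  [modV : ∀ (ℓ : Nat.Primes) (n : ℕ), Module ℚ_[ℓ] (V ℓ n)]
  [finV : ∀ (ℓ : Nat.Primes) (n : ℕ), FiniteDimensional ℚ_[ℓ] (V ℓ n)]

attribute [instance] Groups.grpM Groups.grpH Groups.modH Groups.finH Groups.grpT
  Groups.grpV Groups.modV Groups.finV

/-- Weil-étale motivic cohomology, the comparison maps `κ` with étale cohomology, and the product `e`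
with the canonical class in `H^1_W(k, ℤ)`. -/
structure Motivic extends Groups where
  /-- the comparison map -/
  κ : ∀ (ℓ : Nat.Primes) (n : ℕ) (i : ℤ), M n i →+ H ℓ n i
  /-- the long exact sequences for multiplication by `ℓ` -/
  kummer : ∀ (ℓ : Nat.Primes) (n : ℕ) (i j : ℤ), i + 1 = j →
    Kummer ℓ (T ℓ n i) (κ ℓ n i) (κ ℓ n j)
  /-- the product with the canonical class in `H^1_W(k, ℤ)` -/
  e : ∀ (n : ℕ) (i j : ℤ), i + 1 = j → (M n i →+ M n j)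
  /-- the complex `(H^*_W(X, ℚ(n)), e)` is exact -/
  e_exact : ∀ (n : ℕ) (i j l : ℤ) (h : i + 1 = j) (h' : j + 1 = l) (x : M n j),
    IsTor (e n j l h' x) → ∃ N : ℕ, N ≠ 0 ∧ ∃ y, e n i j h y = N • x

/-- The Frobenius endomorphism of `V ℓ n = H^(2n)(X̄, ℚ_ℓ(n))`, and the maps which give
`H^(2n)(X, ℤ_ℓ(n)) ≅ (V ℓ n)^F` and `H^(2n+1)(X, ℤ_ℓ(n)) ≅ (V ℓ n)_F` up to torsion. -/
structure Frob extends Motivic where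
  /-- the Frobenius endomorphism -/
  F : ∀ (ℓ : Nat.Primes) (n : ℕ), End ℚ_[ℓ] (V ℓ n)
  /-- the characteristic polynomial of the Frobenius endomorphism (for `ℓ` prime to `p`) -/
  P : ℕ → ℚ[X]
  P_monic : ∀ n, (P n).Monic
  mult : ∀ (ℓ : Nat.Primes) (n : ℕ), (F ℓ n).charpoly.rootMultiplicity 1 = (P n).rootMultiplicity 1
  /-- `H^(2n)(X, ℤ_ℓ(n)) → H^(2n)(X̄, ℚ_ℓ(n))` -/
  α : ∀ (ℓ : Nat.Primes) (n : ℕ), H ℓ n (2 * n) →+ V ℓ n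
  α_smul : ∀ (ℓ : Nat.Primes) (n : ℕ) (z : ℤ_[ℓ]) (h : H ℓ n (2 * n)),
    α ℓ n (z • h) = (z : ℚ_[ℓ]) • α ℓ n h
  α_inv : ∀ (ℓ : Nat.Primes) (n : ℕ) (h : H ℓ n (2 * n)), F ℓ n (α ℓ n h) = α ℓ n h
  α_tor : ∀ (ℓ : Nat.Primes) (n : ℕ) (h : H ℓ n (2 * n)), α ℓ n h = 0 → IsTor h
  α_surj : ∀ (ℓ : Nat.Primes) (n : ℕ) (v : V ℓ n), F ℓ n v = v →
    ∃ N : ℕ, N ≠ 0 ∧ ∃ h, α ℓ n h = N • v
  /-- `H^(2n+1)(X, ℤ_ℓ(n)) → H^(2n)(X̄, ℚ_ℓ(n))_F` (the inverse of an isomorphism up to torsion) -/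
  γ : ∀ (ℓ : Nat.Primes) (n : ℕ), H ℓ n (2 * n + 1) →+ V ℓ n ⧸ LinearMap.range (F ℓ n - 1)
  γ_smul : ∀ (ℓ : Nat.Primes) (n : ℕ) (z : ℤ_[ℓ]) (h : H ℓ n (2 * n + 1)),
    γ ℓ n (z • h) = (z : ℚ_[ℓ]) • γ ℓ n h
  γ_tor : ∀ (ℓ : Nat.Primes) (n : ℕ) (h : H ℓ n (2 * n + 1)), γ ℓ n h = 0 → IsTor h
  γ_surj : ∀ (ℓ : Nat.Primes) (n : ℕ) (w : V ℓ n ⧸ LinearMap.range (F ℓ n - 1)),
    ∃ N : ℕ, N ≠ 0 ∧ ∃ h, γ ℓ n h = N • w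
  /-- the product with the canonical class is `V^F → V_F` -/
  γ_e : ∀ (ℓ : Nat.Primes) (n : ℕ) (x : M n (2 * n)),
    γ ℓ n (κ ℓ n _ (e n (2 * n) (2 * n + 1) rfl x)) = Submodule.Quotient.mk (α ℓ n (κ ℓ n _ x))

/-- `Λ = H^(2n)(X̄, ℤ_ℓ(n))` is torsion free and `H^(2n+1)(X, ℤ_ℓ(n)) = Λ_F`; the characteristic
polynomial of the Frobenius endomorphism `f` of `Λ` is `P n`. -/
def HasLattice (X : Frob) (ℓ : Nat.Primes) (n : ℕ) : Prop :=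
  ∃ (Λ : Type) (_ : AddCommGroup Λ) (_ : Module ℤ_[ℓ] Λ)
    (_ : Module.Finite ℤ_[ℓ] Λ) (_ : Module.Free ℤ_[ℓ] Λ) (f : End ℤ_[ℓ] Λ) (ι : Λ →+ X.V ℓ n),
    Function.Injective ι ∧ (∀ (z : ℤ_[ℓ]) x, ι (z • x) = (z : ℚ_[ℓ]) • ι x) ∧
    (∀ x, ι (f x) = X.F ℓ n (ι x)) ∧
    f.charpoly.map (algebraMap ℤ_[ℓ] ℚ_[ℓ]) = (X.P n).map (algebraMap ℚ ℚ_[ℓ]) ∧
    Nonempty (X.H ℓ n (2 * n + 1) ≃+ Λ ⧸ LinearMap.range (f - 1))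

/-- Consequences of the theory of weights, for all primes and for almost all primes. -/
structure Weights extends Frob where
  pure : ∀ (ℓ : Nat.Primes) (n : ℕ) (i : ℤ), i ≠ 2 * n → i ≠ 2 * n + 1 → ∀ h : H ℓ n i, IsTor h
  pure_zero : ∀ (n : ℕ) (i : ℤ), i ≠ 2 * n → i ≠ 2 * n + 1 →
    {ℓ : Nat.Primes | ∃ h : H ℓ n i, h ≠ 0}.Finite
  torsionfree : ∀ n : ℕ, {ℓ : Nat.Primes | ∃ h : H ℓ n (2 * n), h ≠ 0 ∧ IsTor h}.Finite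
  lattice : ∀ n : ℕ, {ℓ : Nat.Primes | ¬ HasLattice toFrob ℓ n}.Finite

/-- Poincaré duality, the product
`H^(2n)_W(X, ℤ(n)) × H^(2n'+1)_W(X, ℤ(n')) → H^(2d+1)_W(X, ℤ(d)) → ℤ` and their compatibility. -/
structure Duality (d : ℕ) extends Weights where
  /-- Poincaré duality -/
  B : ∀ (ℓ : Nat.Primes) (n n' : ℕ), V ℓ n →ₗ[ℚ_[ℓ]] V ℓ n' →ₗ[ℚ_[ℓ]] ℚ_[ℓ]
  B_inv : ∀ (ℓ : Nat.Primes) (n n' : ℕ), n + n' = d → ∀ v w,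
    B ℓ n n' (F ℓ n v) (F ℓ n' w) = B ℓ n n' v w
  B_nondeg : ∀ (ℓ : Nat.Primes) (n n' : ℕ), n + n' = d → ∀ v, (∀ w, B ℓ n n' v w = 0) → v = 0
  B_comm : ∀ (ℓ : Nat.Primes) (n n' : ℕ), n + n' = d → ∀ v w, B ℓ n n' v w = B ℓ n' n w v
  /-- the product `H^(2n)_W(X, ℤ(n)) × H^(2n'+1)_W(X, ℤ(n')) → H^(2d+1)_W(X, ℤ(d)) → ℤ` -/
  deg : ∀ n n', M n (2 * n) →+ M n' (2 * n' + 1) →+ ℤ
  deg_eq : ∀ (ℓ : Nat.Primes) (n n' : ℕ), n + n' = d → ∀ (x : M n (2 * n))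
    (y : M n' (2 * n' + 1)) (w : V ℓ n'), γ ℓ n' (κ ℓ n' _ y) = Submodule.Quotient.mk w →
      (deg n n' x y : ℚ_[ℓ]) = B ℓ n n' (α ℓ n (κ ℓ n _ x)) w

/-- The Weil-étale motivic cohomology of a smooth projective variety `X` of dimension `d` over a finite
field `k`, with the properties which are used. All of them are theorems (see the file with the result
for the references). -/
structure WeilEtale (d : ℕ) extends Duality d where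
  vanish : ∀ (ℓ : Nat.Primes) (n : ℕ), d < n → Subsingleton (V ℓ n)
  /-- the invariants in degree zero are spanned by the classes of the components -/
  unit : ∀ (ℓ : Nat.Primes) (v : V ℓ 0), F ℓ 0 v = v →
    v ∈ Submodule.span ℚ_[ℓ] (Set.range fun x => α ℓ 0 (κ ℓ 0 _ x))
  /-- the power of the Lefschetz operator on Weil-étale motivic cohomology -/
  lefM : ∀ n n', M n (2 * n) →+ M n' (2 * n')
  /-- the power of the Lefschetz operator on étale cohomology -/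
  lefV : ∀ (ℓ : Nat.Primes) (n n' : ℕ), V ℓ n →ₗ[ℚ_[ℓ]] V ℓ n'
  lef_cl : ∀ (ℓ : Nat.Primes) (n n' : ℕ), n + n' = d → n ≤ n' → ∀ x,
    α ℓ n' (κ ℓ n' _ (lefM n n' x)) = lefV ℓ n n' (α ℓ n (κ ℓ n _ x))
  lef_inv : ∀ (ℓ : Nat.Primes) (n n' : ℕ), n + n' = d → n ≤ n' → ∀ v,
    lefV ℓ n n' (F ℓ n v) = F ℓ n' (lefV ℓ n n' v)
  lef_bij : ∀ (ℓ : Nat.Primes) (n n' : ℕ), n + n' = d → n ≤ n' → Function.Bijective (lefV ℓ n n')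

namespace WeilEtale

variable {d : ℕ} (X : WeilEtale d)

/-- `L^n(X)`: the groups `H^i_W(X, ℤ(n))` are finitely generated. -/
def L (n : ℕ) : Prop := ∀ i, AddGroup.FG (X.M n i)

/-- `K^n(X)`: the maps `H^i_W(X, ℤ(n)) ⊗ ℤ_ℓ → H^i(X, ℤ_ℓ(n))` are isomorphisms for all `ℓ` and `i`. -/
def K (n : ℕ) : Prop := ∀ (ℓ : Nat.Primes) (i : ℤ), Function.Bijective (comp ℓ (X.κ ℓ n i))

/-- The maps `H^i_W(X, ℤ(n)) ⊗ ℚ_ℓ → H^i(X, ℚ_ℓ(n))` are isomorphisms for all `i`, for the prime `ℓ`. -/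
def KQ (ℓ : Nat.Primes) (n : ℕ) : Prop := ∀ i : ℤ, RatIso ℓ (X.κ ℓ n i)

/-- Tate's conjecture in codimension `n` for the prime `ℓ`: the invariants of `H^(2n)(X̄, ℚ_ℓ(n))` are
spanned by the image of `H^(2n)_W(X, ℤ(n))` (that is, by the classes of cycles of codimension `n`). -/
def Tate (ℓ : Nat.Primes) (n : ℕ) : Prop := ∀ v : X.V ℓ n, X.F ℓ n v = v →
  v ∈ Submodule.span ℚ_[ℓ] (Set.range fun x => X.α ℓ n (X.κ ℓ n _ x))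

/-- `e : H^(2n)_W(X, ℤ(n)) → H^(2n+1)_W(X, ℤ(n))` -/
abbrev e2 (n : ℕ) : X.M n (2 * n) →+ X.M n (2 * n + 1) := X.e n (2 * n) (2 * n + 1) rfl

/-- Elements of `H^(2n)_W(X, ℤ(n))` which are numerically equivalent to zero, with respect to the
intersection product with `H^(2n')_W(X, ℤ(n'))`, are torsion elements. -/
def Num (n n' : ℕ) : Prop := ∀ x : X.M n (2 * n), (∀ x' : X.M n' (2 * n'),
  X.deg n n' x (X.e2 n' x') = 0) → IsTor x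

end WeilEtale

end Pool.Agent.H860.WE
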