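import Pool.Agent.H860.WE.Main

/-!
# Finite generation of Weil-étale motivic cohomology from one prime: the dual weight
-/

set_option linter.unusedSectionVars false

open TensorProduct Module Polynomial

namespace Pool.Agent.H860.WE

lemma exists_integral {k : ℕ} (c : Fin k → ℚ) :
    ∃ N : ℕ, N ≠ 0 ∧ ∃ a : Fin k → ℤ, ∀ i, (a i : ℚ) = N * c i := by
  refine ⟨∏ i, (c i).den, Finset.prod_ne_zero_iff.2 fun i _ => (c i).den_nz, ?_⟩
  have h : ∀ i, ∃ a : ℤ, (a : ℚ) = ((∏ i, (c i).den : ℕ) : ℚ) * c i := by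
    intro i
    obtain ⟨k, hk⟩ := Finset.dvd_prod_of_mem (fun i => (c i).den) (Finset.mem_univ i)
    refine ⟨k * (c i).num, ?_⟩
    rw [hk]
    have : (c i) * (c i).den = (c i).num := Rat.mul_den_eq_num _
    push_cast
    rw [← this]
    ring
  choose a ha using h
  exact ⟨a, ha⟩

lemma exists_fin {K V : Type*} [Field K] [AddCommGroup V] [Module K V] [FiniteDimensional K V]
    {I : Type*} (f : I → V) : ∃ (r : ℕ) (x : Fin r → I), r = finrank K (Submodule.span K (Set.range f)) ∧
      Submodule.span K (Set.range fun i => f (x i)) = Submodule.span K (Set.range f) ∧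
      LinearIndependent K fun i => f (x i) := by
  obtain ⟨g, hg, h1, h2⟩ := Submodule.exists_fun_fin_finrank_span_eq K (Set.range f)
  choose x hx using hg
  have : g = fun i => f (x i) := (funext hx).symm
  rw [this] at h1 h2
  exact ⟨_, x, rfl, h1, h2⟩

namespace WeilEtale

variable {d : ℕ} {X : WeilEtale d} {n n' : ℕ} {ℓ : Nat.Primes}

lemma deg_e2 (hd : n + n' = d) (ℓ : Nat.Primes) (x : X.M n (2 * n)) (x' : X.M n' (2 * n')) :
    (X.deg n n' x (X.e2 n' x') : ℚ_[ℓ]) = X.B ℓ n n' (X.cl ℓ n x) (X.cl ℓ n' x') :=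
  X.deg_eq ℓ n n' hd x _ _ (X.γ_e ℓ n' x')

lemma deg_comm (hd : n + n' = d) (x : X.M n (2 * n)) (x' : X.M n' (2 * n')) :
    X.deg n' n x' (X.e2 n x) = X.deg n n' x (X.e2 n' x') := by
  have ℓ : Nat.Primes := ⟨2, Nat.prime_two⟩
  have h : (X.deg n' n x' (X.e2 n x) : ℚ_[ℓ]) = X.deg n n' x (X.e2 n' x') := by
    rw [deg_e2 hd, deg_e2 (by omega : n' + n = d), X.B_comm ℓ n n' hd]
  exact_mod_cast h

/-- Tate's conjecture in the dual weight implies that numerically trivial elements are torsion. -/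
lemma num_of_tate (hd : n + n' = d) (h : X.KQ ℓ n) (hT : X.Tate ℓ n') : X.Num n n' := by
  intro x hx
  have h1 : X.cl ℓ n x = 0 := by
    apply pairing (X.F ℓ n) (X.F ℓ n') (X.B ℓ n n') (X.B_inv ℓ n n' hd) (X.B_nondeg ℓ n n' hd)
      (fun w hw => X.B_nondeg ℓ n' n (by omega) w fun v => by
        rw [← X.B_comm ℓ n n' hd]; exact hw v)
      (X.sup_of_KQ h) _ (X.α_inv ℓ n _)
    intro w hw
    have h2 : Submodule.span ℚ_[ℓ] (Set.range fun x => X.α ℓ n' (X.κ ℓ n' _ x)) ≤
        LinearMap.ker (X.B ℓ n n' (X.cl ℓ n x)) := by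
      rw [Submodule.span_le]
      rintro _ ⟨x', rfl⟩
      have h3 := deg_e2 hd ℓ x x'
      rw [hx, Int.cast_zero] at h3
      exact h3.symm
    exact h2 (hT w hw)
  exact (h _).isTor x (X.α_tor ℓ n _ h1)

/-- the intersection numbers of `x'` with the elements `z i` -/
noncomputable def inter (X : WeilEtale d) (n n' : ℕ) {k : ℕ} (z : Fin k → X.M n (2 * n)) (x' : X.M n' (2 * n')) :
    Fin k → ℚ := fun i => X.deg n n' (z i) (X.e2 n' x')

lemma inter_span (hN : X.Num n n') {k : ℕ} (z : Fin k → X.M n (2 * n))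
    (hz : ∀ c : Fin k → ℤ, ∑ i, c i • z i = 0 → c = 0) :
    Submodule.span ℚ (Set.range (X.inter n n' z)) = ⊤ := by
  by_contra hne
  obtain ⟨f, hf, hf'⟩ := Submodule.exists_le_ker_of_lt_top _ (lt_top_iff_ne_top.2 hne)
  obtain ⟨N, hN0, a, ha⟩ := exists_integral fun i => f (Pi.single i 1)
  have hfs : ∀ u : Fin k → ℚ, (N : ℚ) * f u = ∑ i, (a i : ℚ) * u i := by
    intro u
    rw [LinearMap.pi_apply_eq_sum_univ f u, Finset.mul_sum]
    apply Finset.sum_congr rfl
    intro i _
    rw [ha, smul_eq_mul]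
    have : (fun j => if i = j then (1 : ℚ) else 0) = Pi.single i 1 := by
      ext j
      rw [Pi.single_apply]
      simp [eq_comm]
    rw [this]
    ring
  have h1 : IsTor (∑ i, a i • z i) := by
    apply hN
    intro x'
    have h2 : f (X.inter n n' z x') = 0 := hf' (Submodule.subset_span ⟨x', rfl⟩)
    have h3 := hfs (X.inter n n' z x')
    rw [h2, mul_zero] at h3
    have h4 : ((X.deg n n' (∑ i, a i • z i) (X.e2 n' x') : ℤ) : ℚ) = 0 := by
      rw [h3, map_sum, AddMonoidHom.finsetSum_apply]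
      push_cast
      apply Finset.sum_congr rfl
      intro i _
      rw [map_zsmul, AddMonoidHom.zsmul_apply, smul_eq_mul]
      push_cast
      rfl
    exact_mod_cast h4
  obtain ⟨M, hM, h2⟩ := h1
  have h3 := hz (fun i => M * a i) (by
    rw [← h2, Finset.smul_sum]
    apply Finset.sum_congr rfl
    intro i _
    rw [mul_smul, natCast_zsmul])
  have h4 : ∀ i, a i = 0 := by
    intro i
    have := congrFun h3 i
    exact (mul_eq_zero.1 this).resolve_left (by exact_mod_cast hM)
  apply hf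
  apply LinearMap.ext
  intro u
  have h5 := hfs u
  simp only [h4, Int.cast_zero, zero_mul, Finset.sum_const_zero, mul_eq_zero] at h5
  exact h5.resolve_left (by exact_mod_cast hN0)

lemma cl_indep (hd : n + n' = d) (hN : X.Num n n') {k : ℕ} (z : Fin k → X.M n (2 * n))
    (hz : ∀ c : Fin k → ℤ, ∑ i, c i • z i = 0 → c = 0) (ℓ : Nat.Primes) :
    LinearIndependent ℚ_[ℓ] (fun i => X.cl ℓ n (z i)) := by
  rw [Fintype.linearIndependent_iff]
  intro b hb
  let g : (Fin k → ℚ) →ₗ[ℚ] ℚ_[ℓ] :=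
    ∑ i, (LinearMap.toSpanSingleton ℚ ℚ_[ℓ] (b i)).comp (LinearMap.proj i)
  have hg : ∀ u, g u = ∑ i, (u i : ℚ_[ℓ]) * b i := by
    intro u
    simp only [g, LinearMap.sum_apply, LinearMap.comp_apply, LinearMap.proj_apply,
      LinearMap.toSpanSingleton_apply]
    apply Finset.sum_congr rfl
    intro i _
    rw [Rat.smul_def]
  have h1 : Submodule.span ℚ (Set.range (X.inter n n' z)) ≤ LinearMap.ker g := by
    rw [Submodule.span_le]
    rintro _ ⟨x', rfl⟩
    rw [SetLike.mem_coe, LinearMap.mem_ker, hg]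
    have h2 := congrArg (fun v => X.B ℓ n n' v (X.cl ℓ n' x')) hb
    simp only [map_sum, LinearMap.sum_apply, map_zero, LinearMap.zero_apply, map_smul,
      LinearMap.smul_apply, smul_eq_mul] at h2
    rw [← h2]
    apply Finset.sum_congr rfl
    intro i _
    rw [← deg_e2 hd, mul_comm]
    unfold inter
    push_cast
    rfl
  rw [inter_span hN z hz, top_le_iff] at h1
  intro i
  have h3 : g (Pi.single i 1) = 0 := by
    rw [← LinearMap.mem_ker, h1]; trivial
  rw [hg, Finset.sum_eq_single i] at h3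
  · simpa using h3
  · intro j _ hj
    rw [Pi.single_eq_of_ne hj]
    simp
  · simp

lemma L_of_num (hd : n + n' = d) (h : X.KQ ℓ n) (hN : X.Num n n') : X.L n := by
  obtain ⟨r, x, hr, -, hfi⟩ := exists_fin (K := ℚ_[ℓ]) (X.cl ℓ n)
  have hspan : Submodule.span ℚ_[ℓ] (Set.range fun x => X.cl ℓ n x) =
      LinearMap.ker (X.F ℓ n - 1) := by
    apply le_antisymm
    · rw [Submodule.span_le]
      rintro _ ⟨x, rfl⟩
      exact X.mem_ker.2 (X.α_inv ℓ n _)
    · intro v hv
      exact X.tate_of_KQ h v (X.mem_ker.1 hv)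
  have hrm : r = (X.P n).rootMultiplicity 1 := by
    rw [hr, hspan, finrank_ker_of_sup _ (X.sup_of_KQ h), X.mult]
  have hz : ∀ c : Fin r → ℤ, ∑ i, c i • x i = 0 → c = 0 := by
    intro c hc
    have h1 := congrArg (X.cl ℓ n) hc
    unfold cl at h1
    rw [map_sum, map_sum, map_zero, map_zero] at h1
    rw [Fintype.linearIndependent_iff] at hfi
    have h2 := hfi (fun i => (c i : ℚ_[ℓ])) (by
      rw [← h1]
      apply Finset.sum_congr rfl
      intro i _
      rw [map_zsmul, map_zsmul, Int.cast_smul_eq_zsmul])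
    funext i
    exact_mod_cast h2 i
  have hM : ∀ y : X.M n (2 * n), ∃ N : ℕ, N ≠ 0 ∧ ∃ c : Fin r → ℤ, N • y = ∑ i, c i • x i := by
    intro y
    by_contra hy
    have h1 : ∀ c : Fin (r + 1) → ℤ, ∑ i, c i • (Fin.cons y x : Fin (r + 1) → X.M n (2 * n)) i = 0 →
        c = 0 := by
      intro c hc
      rw [Fin.sum_univ_succ] at hc
      simp only [Fin.cons_zero, Fin.cons_succ] at hc
      have hc0 : c 0 = 0 := by
        by_contra hc0
        apply hy
        rw [add_eq_zero_iff_eq_neg, ← Finset.sum_neg_distrib] at hc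
        rcases Int.natAbs_eq (c 0) with h2 | h2
        · refine ⟨(c 0).natAbs, by simpa using hc0, fun i => - c i.succ, ?_⟩
          rw [← natCast_zsmul, ← h2, hc]
          simp
        · refine ⟨(c 0).natAbs, by simpa using hc0, fun i => c i.succ, ?_⟩
          rw [h2, neg_smul, neg_eq_iff_eq_neg, natCast_zsmul] at hc
          rw [hc]
          simp
      rw [hc0, zero_smul, zero_add] at hc
      have h3 := hz _ hc
      funext i
      refine Fin.cases hc0 (fun j => ?_) i
      exact congrFun h3 j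
    have h2 := cl_indep hd hN _ h1 ℓ
    have h3 : Submodule.span ℚ_[ℓ] (Set.range fun i => X.cl ℓ n
        ((Fin.cons y x : Fin (r + 1) → X.M n (2 * n)) i)) ≤ LinearMap.ker (X.F ℓ n - 1) := by
      rw [Submodule.span_le]
      rintro _ ⟨x, rfl⟩
      exact X.mem_ker.2 (X.α_inv ℓ n _)
    have h4 := Submodule.finrank_mono h3
    rw [finrank_span_eq_card h2, Fintype.card_fin, ← hspan, ← hr] at h4
    omega
  obtain ⟨s, x', -, hgs, -⟩ := exists_fin (K := ℚ) (X.inter n n' x)
  rw [inter_span hN x hz] at hgs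
  have key : ∀ c : Fin r → ℤ, (∀ j, ∑ i, c i * X.deg n n' (x i) (X.e2 n' (x' j)) = 0) → c = 0 := by
    intro c hc
    let q : (Fin r → ℚ) →ₗ[ℚ] ℚ := ∑ i, (c i : ℚ) • LinearMap.proj i
    have hq : ∀ u, q u = ∑ i, (c i : ℚ) * u i := by
      intro u
      simp [q]
    have h1 : Submodule.span ℚ (Set.range fun j => X.inter n n' x (x' j)) ≤ LinearMap.ker q := by
      rw [Submodule.span_le]
      rintro _ ⟨j, rfl⟩
      rw [SetLike.mem_coe, LinearMap.mem_ker, hq]
      have := hc j
      change ∑ i, (c i : ℚ) * ((X.deg n n' (x i) (X.e2 n' (x' j)) : ℤ) : ℚ) = 0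
      exact_mod_cast this
    rw [hgs, top_le_iff] at h1
    funext i
    have h3 : q (Pi.single i 1) = 0 := by
      rw [← LinearMap.mem_ker, h1]; trivial
    rw [hq, Finset.sum_eq_single i] at h3
    · simpa using h3
    · intro j _ hj
      rw [Pi.single_eq_of_ne hj]
      simp
    · simp
  refine Data.L (X := X) (r := r) (s := s) ⟨x, cl_indep hd hN x hz, hrm.ge, hM, X.other_of_KQ h,
    AddMonoidHom.pi fun j => X.deg n n' |>.flip (X.e2 n' (x' j)), ?_,
    AddMonoidHom.pi fun j => X.deg n' n (x' j), ?_⟩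
  · intro y hy
    obtain ⟨N, hN0, c, hc⟩ := hM y
    refine ⟨N, hN0, ?_⟩
    have : c = 0 := by
      apply key
      intro j
      have h1 := congrFun hy j
      have h1 : X.deg n n' y (X.e2 n' (x' j)) = 0 := h1
      have h2 := congrArg (fun y => X.deg n n' y (X.e2 n' (x' j))) hc
      simp only [map_nsmul, map_sum, AddMonoidHom.nsmul_apply, h1, smul_zero,
        AddMonoidHom.finsetSum_apply, map_zsmul, AddMonoidHom.zsmul_apply, smul_eq_mul] at h2
      exact h2.symm
    rw [hc, this]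
    simp
  · intro y hy
    obtain ⟨N, hN0, z, hz0⟩ := X.e2_surj (X.other_of_KQ h) y
    obtain ⟨M, hM0, c, hc⟩ := hM z
    have : c = 0 := by
      apply key
      intro j
      have h1 := congrFun hy j
      have h1 : X.deg n' n (x' j) y = 0 := h1
      have h3 : X.deg n' n (x' j) (X.e2 n z) = 0 := by rw [hz0, map_nsmul, h1, smul_zero]
      rw [deg_comm hd] at h3
      have h2 := congrArg (fun y => X.deg n n' y (X.e2 n' (x' j))) hc
      simp only [map_nsmul, map_sum, AddMonoidHom.nsmul_apply, h3, smul_zero,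
        AddMonoidHom.finsetSum_apply, map_zsmul, AddMonoidHom.zsmul_apply, smul_eq_mul] at h2
      exact h2.symm
    apply IsTor.of_nsmul hN0
    rw [← hz0]
    apply IsTor.map
    exact ⟨M, hM0, by rw [hc, this]; simp⟩

lemma tate_lefschetz (hd : n + n' = d) (hn : n ≤ n') (h : X.Tate ℓ n) : X.Tate ℓ n' := by
  intro w hw
  obtain ⟨v, rfl⟩ := (X.lef_bij ℓ n n' hd hn).2 w
  rw [← X.lef_inv ℓ n n' hd hn] at hw
  have h1 := h v ((X.lef_bij ℓ n n' hd hn).1 hw)
  have h2 := Submodule.mem_map_of_mem (f := X.lefV ℓ n n') h1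
  rw [Submodule.map_span] at h2
  apply Submodule.span_mono _ h2
  rintro _ ⟨_, ⟨x, rfl⟩, rfl⟩
  exact ⟨X.lefM n n' x, X.lef_cl ℓ n n' hd hn x⟩

/-- The rational comparison isomorphism for one prime implies finite generation, in the weights
`n ≤ d / 2` and `n ≥ d`. -/
lemma L_of_KQ (hn : 2 * n ≤ d ∨ d ≤ n) (h : X.KQ ℓ n) : X.L n := by
  rcases hn with hn | hn
  · obtain ⟨n', rfl⟩ := Nat.exists_eq_add_of_le (show n ≤ d by omega)
    exact L_of_num rfl h (num_of_tate rfl h (tate_lefschetz rfl (by omega) (X.tate_of_KQ h)))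
  · rcases hn.eq_or_lt with rfl | hn
    · exact L_of_num (n' := 0) (add_zero _) h (num_of_tate (add_zero _) h (X.unit ℓ))
    · exact L_of_large hn h

end WeilEtale

end Pool.Agent.H860.WE
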