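import Pool.Agent.H860.WE.Defs

/-!
# Lemmas on comparison maps
-/

set_option linter.unusedSectionVars false

open TensorProduct Module Polynomial

namespace Pool.Agent.H860.WE

lemma IsTor.map {A B : Type*} [AddCommGroup A] [AddCommGroup B] (f : A →+ B) {x : A} (h : IsTor x) :
    IsTor (f x) := by
  obtain ⟨N, hN, h⟩ := h
  exact ⟨N, hN, by rw [← map_nsmul, h, map_zero]⟩

lemma IsTor.of_nsmul {A : Type*} [AddCommGroup A] {x : A} {N : ℕ} (hN : N ≠ 0) (h : IsTor (N • x)) :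
    IsTor x := by
  obtain ⟨M, hM, h⟩ := h
  exact ⟨M * N, mul_ne_zero hM hN, by rw [mul_nsmul', h]⟩

lemma IsTor.add {A : Type*} [AddCommGroup A] {x y : A} (hx : IsTor x) (hy : IsTor y) :
    IsTor (x + y) := by
  obtain ⟨M, hM, h⟩ := hx
  obtain ⟨N, hN, h'⟩ := hy
  exact ⟨M * N, mul_ne_zero hM hN, by rw [smul_add, mul_nsmul, h, mul_nsmul', h', smul_zero,
    smul_zero, add_zero]⟩

lemma isTor_zero {A : Type*} [AddCommGroup A] : IsTor (0 : A) := ⟨1, one_ne_zero, smul_zero 1⟩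

lemma IsTor.eq_zero {K V : Type*} [Field K] [CharZero K] [AddCommGroup V] [Module K V] {v : V}
    (h : IsTor v) : v = 0 := by
  obtain ⟨N, hN, h⟩ := h
  rw [← Nat.cast_smul_eq_nsmul K] at h
  exact (smul_eq_zero.1 h).resolve_left (by exact_mod_cast hN)

section

variable {p : ℕ} [Fact p.Prime] {A H W : Type*} [AddCommGroup A] [AddCommGroup H] [Module ℤ_[p] H]
variable [AddCommGroup W] [Module ℚ_[p] W] {κ : A →+ H}

lemma RatIso.isTor (h : RatIso p κ) (x : A) (hx : IsTor (κ x)) : IsTor x := by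
  obtain ⟨N, hN, hx⟩ := hx
  obtain ⟨M, hM, h1⟩ := h.1 (1 ⊗ₜ (N • x)) (by rw [comp_one_tmul, map_nsmul, hx])
  rw [← TensorProduct.tmul_smul] at h1
  exact ((isTor_of_one_tmul _ h1).of_nsmul hM).of_nsmul hN

lemma map_comp_mem (β : H →+ W) (hβ : ∀ (z : ℤ_[p]) h, β (z • h) = (z : ℚ_[p]) • β h)
    (S : Submodule ℚ_[p] W) (hS : ∀ a, β (κ a) ∈ S) (t : ℤ_[p] ⊗[ℤ] A) : β (comp p κ t) ∈ S := by
  induction t using TensorProduct.induction_on with
  | zero => rw [map_zero, map_zero]; exact S.zero_mem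
  | tmul z a => rw [comp_tmul, hβ]; exact S.smul_mem _ (hS a)
  | add a b ha hb => rw [map_add, map_add]; exact S.add_mem ha hb

lemma isTor_tmul (h : ∀ a : A, IsTor a) (t : ℤ_[p] ⊗[ℤ] A) : IsTor t := by
  induction t using TensorProduct.induction_on with
  | zero => exact isTor_zero
  | tmul z a =>
    obtain ⟨N, hN, ha⟩ := h a
    exact ⟨N, hN, by rw [← TensorProduct.tmul_smul, ha, TensorProduct.tmul_zero]⟩
  | add a b ha hb => exact ha.add hb

lemma ratIso_of_isTor (h : ∀ a : A, IsTor a) (h' : ∀ x : H, IsTor x) : RatIso p κ :=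
  ⟨fun t _ => isTor_tmul h t, fun x => by
    obtain ⟨N, hN, hx⟩ := h' x
    exact ⟨N, hN, 0, by rw [hx, map_zero]⟩⟩

lemma exists_pow_integral {r : ℕ} (c : Fin r → ℚ_[p]) :
    ∃ (a : ℕ) (z : Fin r → ℤ_[p]), ∀ i, (z i : ℚ_[p]) = (p : ℚ_[p]) ^ a * c i := by
  have hp : (1 : ℝ) < p := by exact_mod_cast (Fact.out : p.Prime).one_lt
  obtain ⟨a, ha⟩ := pow_unbounded_of_one_lt (∑ i, ‖c i‖) hp
  have h : ∀ i, ‖(p : ℚ_[p]) ^ a * c i‖ ≤ 1 := by
    intro i
    have h1 : ‖c i‖ ≤ (p : ℝ) ^ a :=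
      (Finset.single_le_sum (f := fun i => ‖c i‖) (fun _ _ => norm_nonneg _)
        (Finset.mem_univ i)).trans ha.le
    rw [norm_mul, norm_pow, Padic.norm_p, inv_pow]
    exact inv_mul_le_one_of_le₀ h1 (by positivity)
  exact ⟨a, fun i => ⟨_, h i⟩, fun i => rfl⟩

lemma exists_sum_tmul {r : ℕ} (x : Fin r → A)
    (hspan : ∀ a : A, ∃ N : ℕ, N ≠ 0 ∧ ∃ c : Fin r → ℤ, N • a = ∑ i, c i • x i)
    (t : ℤ_[p] ⊗[ℤ] A) : ∃ N : ℕ, N ≠ 0 ∧ ∃ z : Fin r → ℤ_[p], N • t = ∑ i, z i ⊗ₜ[ℤ] x i := by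
  induction t using TensorProduct.induction_on with
  | zero => exact ⟨1, one_ne_zero, 0, by simp⟩
  | tmul z a =>
    obtain ⟨N, hN, c, hc⟩ := hspan a
    refine ⟨N, hN, fun i => c i • z, ?_⟩
    rw [← TensorProduct.tmul_smul, hc, TensorProduct.tmul_sum]
    apply Finset.sum_congr rfl
    intro i _
    rw [TensorProduct.smul_tmul]
  | add a b ha hb =>
    obtain ⟨M, hM, y, hy⟩ := ha
    obtain ⟨N, hN, z, hz⟩ := hb
    refine ⟨M * N, mul_ne_zero hM hN, N • y + M • z, ?_⟩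
    rw [smul_add, mul_nsmul, hy, mul_nsmul', hz, Finset.smul_sum, Finset.smul_sum,
      ← Finset.sum_add_distrib]
    apply Finset.sum_congr rfl
    intro i _
    rw [Pi.add_apply, TensorProduct.add_tmul, Pi.smul_apply, Pi.smul_apply,
      TensorProduct.smul_tmul, TensorProduct.smul_tmul, TensorProduct.tmul_smul,
      TensorProduct.tmul_smul]

lemma ratIso_of (β : H →+ W) (hβ : ∀ (z : ℤ_[p]) h, β (z • h) = (z : ℚ_[p]) • β h)
    (htor : ∀ h, β h = 0 → IsTor h) {r : ℕ} (x : Fin r → A)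
    (hind : LinearIndependent ℚ_[p] (fun i => β (κ (x i))))
    (hspan : ∀ a : A, ∃ N : ℕ, N ≠ 0 ∧ ∃ c : Fin r → ℤ, N • a = ∑ i, c i • x i)
    (hsurj : ∀ h, β h ∈ Submodule.span ℚ_[p] (Set.range fun i => β (κ (x i)))) : RatIso p κ := by
  have hsum : ∀ z : Fin r → ℤ_[p], β (comp p κ (∑ i, z i ⊗ₜ[ℤ] x i)) =
      ∑ i, (z i : ℚ_[p]) • β (κ (x i)) := by
    intro z
    rw [map_sum, map_sum]
    apply Finset.sum_congr rfl
    intro i _
    rw [comp_tmul, hβ]
  constructor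
  · intro t ht
    obtain ⟨N, hN, z, hz⟩ := exists_sum_tmul x hspan t
    refine ⟨N, hN, ?_⟩
    have h1 := hsum z
    rw [← hz, map_nsmul, ht, smul_zero, map_zero] at h1
    have h2 := Fintype.linearIndependent_iff.1 hind _ h1.symm
    rw [hz]
    apply Finset.sum_eq_zero
    intro i _
    have : z i = 0 := Subtype.ext (h2 i)
    rw [this, TensorProduct.zero_tmul]
  · intro h
    obtain ⟨c, hc⟩ := (Submodule.mem_span_range_iff_exists_fun _).1 (hsurj h)
    obtain ⟨a, z, hz⟩ := exists_pow_integral c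
    have h1 : β (p ^ a • h - comp p κ (∑ i, z i ⊗ₜ[ℤ] x i)) = 0 := by
      rw [map_sub, hsum, map_nsmul, ← hc, Finset.smul_sum, sub_eq_zero]
      apply Finset.sum_congr rfl
      intro i _
      rw [hz, mul_smul, ← Nat.cast_smul_eq_nsmul ℚ_[p], Nat.cast_pow]
    obtain ⟨N, hN, h2⟩ := htor _ h1
    refine ⟨N * p ^ a, mul_ne_zero hN (pow_ne_zero _ (Fact.out : p.Prime).ne_zero),
      N • ∑ i, z i ⊗ₜ[ℤ] x i, ?_⟩
    rw [smul_sub, sub_eq_zero] at h2
    rw [map_nsmul, ← h2, mul_nsmul']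

lemma finite_tor [Module.Finite ℤ_[p] H] : {h : H | IsTor h}.Finite := by
  let P : Submodule ℤ_[p] H :=
    { carrier := {h | IsTor h}
      add_mem' := fun ha hb => IsTor.add ha hb
      zero_mem' := isTor_zero
      smul_mem' := by
        rintro z h ⟨N, hN, hh⟩
        exact ⟨N, hN, by rw [smul_comm, hh, smul_zero]⟩ }
  obtain ⟨s, hs⟩ := (IsNoetherian.noetherian P : P.FG)
  have h1 : ∀ x ∈ s, IsTor x := by
    intro x hx
    have : x ∈ P := by rw [← hs]; exact Submodule.subset_span hx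
    exact this
  have h2 : ∃ N : ℕ, N ≠ 0 ∧ ∀ x ∈ s, N • x = 0 := by
    choose! f hf hf' using h1
    refine ⟨∏ x ∈ s, f x, Finset.prod_ne_zero_iff.2 hf, ?_⟩
    intro x hx
    obtain ⟨k, hk⟩ := Finset.dvd_prod_of_mem f hx
    rw [hk, mul_nsmul, hf' x hx, smul_zero]
  obtain ⟨N, hN, h2⟩ := h2
  obtain ⟨a, u, hu⟩ := exists_pow_mul_unit (p := p) N hN
  have h3 : ∀ x ∈ s, (p : ℤ_[p]) ^ a • x = 0 := by
    intro x hx
    have := h2 x hx
    rw [← Nat.cast_smul_eq_nsmul ℤ_[p] N, hu, mul_comm, mul_smul] at this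
    have := congrArg (fun x => (↑u⁻¹ : ℤ_[p]) • x) this
    simpa [smul_smul] using this
  have h4 : {h : H | IsTor h} ⊆ Set.range (fun f : s → Fin (p ^ a) => ∑ x, (f x : ℕ) • (x : H)) := by
    intro h hh
    have : h ∈ Submodule.span ℤ_[p] (s : Set H) := by rw [hs]; exact hh
    obtain ⟨z, -, hz⟩ := Submodule.mem_span_finset.1 this
    refine ⟨fun x => ⟨(z x).appr a, PadicInt.appr_lt _ _⟩, ?_⟩
    rw [← hz]
    simp only
    rw [Finset.sum_coe_sort s (fun x => (z x).appr a • x)]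
    apply Finset.sum_congr rfl
    intro x hx
    obtain ⟨y, hy⟩ := Ideal.mem_span_singleton.1 (PadicInt.appr_spec a (z x))
    rw [← Nat.cast_smul_eq_nsmul ℤ_[p], ← sub_eq_zero, ← sub_smul, ← neg_sub, neg_smul, hy,
      mul_comm, mul_smul, h3 x hx, smul_zero, neg_zero]
  exact (Set.finite_range _).subset h4

end

/-- A criterion for finite generation. -/
lemma fg_of {A : Type*} [AddCommGroup A] {H : Nat.Primes → Type*} [∀ ℓ, AddCommGroup (H ℓ)]
    [∀ ℓ : Nat.Primes, Module ℤ_[ℓ] (H ℓ)] [∀ ℓ : Nat.Primes, Module.Finite ℤ_[ℓ] (H ℓ)]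
    (κ : ∀ ℓ, A →+ H ℓ) (hinj : ∀ ℓ : Nat.Primes, Function.Injective (comp ℓ (κ ℓ)))
    (hS : {ℓ | ∃ h : H ℓ, h ≠ 0 ∧ IsTor h}.Finite)
    {s : ℕ} (φ : A →+ (Fin s → ℤ)) (hφ : ∀ x, φ x = 0 → IsTor x) : AddGroup.FG A := by
  rw [← Module.Finite.iff_addGroup_fg]
  have hfin : {x : A | IsTor x}.Finite := by
    have := hS.to_subtype
    let S := {ℓ | ∃ h : H ℓ, h ≠ 0 ∧ IsTor h}
    let f : {x : A // IsTor x} → ∀ ℓ : S, {h : H ℓ | IsTor h} :=
      fun x ℓ => ⟨κ ℓ x, x.2.map (κ ℓ)⟩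
    have hf : Function.Injective f := by
      intro x y hxy
      have h1 : ∀ ℓ : Nat.Primes, κ ℓ (x.1 - y.1) = 0 := by
        intro ℓ
        by_cases hℓ : ℓ ∈ S
        · have := congrFun hxy ⟨ℓ, hℓ⟩
          have := congrArg Subtype.val this
          rw [map_sub, sub_eq_zero]
          exact this
        · by_contra h0
          apply hℓ
          refine ⟨_, h0, ?_⟩
          apply IsTor.map
          rw [sub_eq_add_neg]
          exact x.2.add (y.2.map (-(AddMonoidHom.id A)))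
      by_contra hne
      obtain ⟨N, hN, hz⟩ : IsTor (x.1 - y.1) := by
        rw [sub_eq_add_neg]
        exact x.2.add (y.2.map (-(AddMonoidHom.id A)))
      have hz0 : x.1 - y.1 ≠ 0 := by
        rw [sub_ne_zero]
        exact fun h => hne (Subtype.ext h)
      have ho : addOrderOf (x.1 - y.1) ≠ 1 := by
        rw [Ne, AddMonoid.addOrderOf_eq_one_iff]
        exact hz0
      have ho' : addOrderOf (x.1 - y.1) ≠ 0 := by
        intro h
        rw [addOrderOf_eq_zero_iff'] at h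
        exact h N (Nat.pos_of_ne_zero hN) hz
      obtain ⟨q, hq, k, hk⟩ := Nat.exists_prime_and_dvd ho
      have hk1 : k • (x.1 - y.1) ≠ 0 := by
        intro h
        have := addOrderOf_dvd_of_nsmul_eq_zero h
        rw [hk] at this
        have hk0 : k ≠ 0 := by
          rintro rfl
          exact ho' (by rw [hk, mul_zero])
        have h2 := Nat.le_of_dvd (Nat.pos_of_ne_zero hk0) this
        have h3 := hq.two_le
        nlinarith [Nat.pos_of_ne_zero hk0]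
      have hk2 : q • (k • (x.1 - y.1)) = 0 := by
        rw [← mul_nsmul', ← hk, addOrderOf_nsmul_eq_zero]
      obtain ⟨ℓ, rfl⟩ : ∃ ℓ : Nat.Primes, (ℓ : ℕ) = q := ⟨⟨q, hq⟩, rfl⟩
      have hk3 : (1 : ℤ_[ℓ]) ⊗ₜ[ℤ] (k • (x.1 - y.1)) = 0 := by
        apply hinj ℓ
        rw [comp_one_tmul, map_nsmul, h1, map_zero, smul_zero]
      exact hk1 (eq_zero_of_one_tmul (p := ℓ) _ hk2 hk3)
    have hfi : ∀ ℓ : S, Finite {h : H ℓ | IsTor h} :=
      fun ℓ => (finite_tor (p := (ℓ : Nat.Primes))).to_subtype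
    have hff : Finite {x : A | IsTor x} := Finite.of_injective f hf
    exact Set.toFinite {x : A | IsTor x}
  have h1 : (⊤ : Submodule ℤ A).FG := by
    apply Submodule.fg_of_fg_map_of_fg_inf_ker φ.toIntLinearMap
    · exact IsNoetherian.noetherian _
    · have : ((⊤ ⊓ LinearMap.ker φ.toIntLinearMap : Submodule ℤ A) : Set A).Finite :=
        hfin.subset (fun x hx => hφ x hx.2)
      have := this.to_subtype
      rw [← Module.Finite.iff_fg]
      infer_instance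
  exact ⟨h1⟩

end Pool.Agent.H860.WE
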