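import Pool.Agent.H860.WE.Local

/-!
# Kummer sequences and comparison maps
-/

set_option linter.unusedSectionVars false

open TensorProduct Module

namespace Pool.Agent.H860.WE

/-- The long exact sequences of cohomology that come from multiplication by `p`, in one degree, for two
theories and a map `κ` between them: `A → A → T → A' → A'` and
`H → H → T → H' → H'` (multiplication by `p`, reduction, boundary map, multiplication by `p`) are exact, and `κ`, `κ'` and the identity of `T` commute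
with the maps. -/
structure Kummer (p : ℕ) {A A' H H' : Type*} (T : Type*) [AddCommGroup A] [AddCommGroup A']
    [AddCommGroup H] [AddCommGroup H'] [AddCommGroup T] (κ : A →+ H) (κ' : A' →+ H') where
  /-- reduction modulo `p` -/
  red : A →+ T
  /-- the boundary map -/
  bock : T →+ A'
  /-- reduction modulo `p` -/
  red' : H →+ T
  /-- the boundary map -/
  bock' : T →+ H'
  red_eq_zero : ∀ x, red x = 0 ↔ ∃ y, p • y = x
  bock_eq_zero : ∀ t, bock t = 0 ↔ ∃ x, red x = t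
  mem_bock : ∀ y, p • y = 0 ↔ ∃ t, bock t = y
  red'_eq_zero : ∀ x, red' x = 0 ↔ ∃ y, p • y = x
  bock'_eq_zero : ∀ t, bock' t = 0 ↔ ∃ x, red' x = t
  mem_bock' : ∀ y, p • y = 0 ↔ ∃ t, bock' t = y
  comm_red : ∀ x, red' (κ x) = red x
  comm_bock : ∀ t, κ' (bock t) = bock' t

section

variable {p : ℕ} [Fact p.Prime] {A A' A'' H H' H'' T T' : Type*}
variable [AddCommGroup A] [AddCommGroup A'] [AddCommGroup A'']
variable [AddCommGroup H] [Module ℤ_[p] H] [AddCommGroup H'] [Module ℤ_[p] H']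
variable [AddCommGroup H''] [Module ℤ_[p] H''] [AddCommGroup T] [AddCommGroup T']
variable {κ : A →+ H} {κ' : A' →+ H'} {κ'' : A'' →+ H''}

lemma Kummer.div (S : Kummer p T κ κ') (x : A) (h : ∃ y, p • y = κ x) : ∃ y, p • y = x := by
  rw [← S.red_eq_zero, ← S.comm_red, S.red'_eq_zero]
  exact h

lemma Kummer.lift (S : Kummer p T κ κ') (y : H') (h : p • y = 0) : ∃ z, p • z = 0 ∧ κ' z = y := by
  obtain ⟨t, rfl⟩ := (S.mem_bock' y).1 h
  exact ⟨S.bock t, (S.mem_bock _).2 ⟨t, rfl⟩, S.comm_bock t⟩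

/-- `t ∈ ℤ_p ⊗ A` with image divisible by `p` is divisible by `p`. -/
lemma Kummer.div_comp (S : Kummer p T κ κ') (t : ℤ_[p] ⊗[ℤ] A) (h : ∃ y, p • y = comp p κ t) :
    ∃ t', p • t' = t := by
  obtain ⟨x, t', rfl⟩ := tmul_decomp t
  obtain ⟨y, hy⟩ := h
  obtain ⟨x', rfl⟩ := S.div x ⟨y - comp p κ t', by
    rw [smul_sub, hy, map_add, comp_one_tmul, p_smul_eq, map_nsmul]
    abel⟩
  refine ⟨1 ⊗ₜ x' + t', ?_⟩
  rw [smul_add, p_smul_eq, TensorProduct.tmul_smul]

/-- If `p • h` comes from `ℤ_p ⊗ A'`, then so does `h`. -/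
lemma Kummer.sat (S : Kummer p T κ κ') (S' : Kummer p T' κ' κ'') (h : H') (t : ℤ_[p] ⊗[ℤ] A')
    (ht : comp p κ' t = p • h) : ∃ t', comp p κ' t' = h := by
  obtain ⟨s, rfl⟩ := S'.div_comp t ⟨h, ht.symm⟩
  rw [map_nsmul] at ht
  obtain ⟨z, -, hz⟩ := S.lift (h - comp p κ' s) (by rw [smul_sub, ht, sub_self])
  exact ⟨1 ⊗ₜ z + s, by rw [map_add, comp_one_tmul, hz]; abel⟩

/-- `κ'` is injective on the elements killed by `p` if `ℤ_p ⊗ A → H` is surjective. -/
lemma Kummer.inj (S : Kummer p T κ κ') (hs : Function.Surjective (comp p κ)) (y : A')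
    (hy : p • y = 0) (h : κ' y = 0) : y = 0 := by
  obtain ⟨t, rfl⟩ := (S.mem_bock y).1 hy
  rw [S.comm_bock, S.bock'_eq_zero] at h
  obtain ⟨h, rfl⟩ := h
  obtain ⟨s, rfl⟩ := hs h
  obtain ⟨x, s', rfl⟩ := tmul_decomp s
  rw [S.bock_eq_zero]
  refine ⟨x, ?_⟩
  rw [map_add, comp_one_tmul, p_smul_eq, map_nsmul, map_add, map_nsmul, S.comm_red]
  have : p • S.red' (comp p κ s') = 0 := by
    rw [← map_nsmul, S.red'_eq_zero]
    exact ⟨_, rfl⟩
  rw [this, add_zero]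

/-- a natural number is a power of `p` times a unit of `ℤ_p` -/
lemma exists_pow_mul_unit (N : ℕ) (hN : N ≠ 0) :
    ∃ (a : ℕ) (u : ℤ_[p]ˣ), (N : ℤ_[p]) = (p : ℤ_[p]) ^ a * u := by
  have h : (N : ℤ_[p]) ≠ 0 := by exact_mod_cast hN
  refine ⟨(N : ℤ_[p]).valuation, PadicInt.unitCoeff h, ?_⟩
  rw [mul_comm]
  exact PadicInt.unitCoeff_spec h

lemma surj_of_rat (S : Kummer p T κ κ') (S' : Kummer p T' κ' κ'')
    (h : ∀ h : H', ∃ N : ℕ, N ≠ 0 ∧ ∃ t, comp p κ' t = N • h) :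
    Function.Surjective (comp p κ') := by
  intro x
  obtain ⟨N, hN, t, ht⟩ := h x
  obtain ⟨a, u, hu⟩ := exists_pow_mul_unit (p := p) N hN
  have h1 : comp p κ' ((↑u⁻¹ : ℤ_[p]) • t) = (p : ℤ_[p]) ^ a • x := by
    rw [map_smul, ht, ← Nat.cast_smul_eq_nsmul ℤ_[p] N, hu, smul_smul,
      mul_comm, mul_assoc, Units.mul_inv, mul_one]
  clear hu ht
  generalize (↑u⁻¹ : ℤ_[p]) • t = s at h1
  clear t u hN N
  induction a generalizing s with
  | zero => exact ⟨s, by simpa using h1⟩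
  | succ a ih =>
    rw [pow_succ', mul_smul, p_smul_eq'] at h1
    obtain ⟨t', ht'⟩ := S.sat S' _ _ h1
    exact ih t' ht'

lemma inj_of_rat (S : Kummer p T κ κ') (hs : Function.Surjective (comp p κ))
    (h : ∀ t, comp p κ' t = 0 → IsTor t) : Function.Injective (comp p κ') := by
  rw [injective_iff_map_eq_zero]
  intro t ht
  obtain ⟨N, hN, hNt⟩ := h t ht
  obtain ⟨a, u, hu⟩ := exists_pow_mul_unit (p := p) N hN
  have h1 : (p : ℤ_[p]) ^ a • t = 0 := by
    rw [← Nat.cast_smul_eq_nsmul ℤ_[p] N, hu, mul_comm, mul_smul] at hNt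
    have := congrArg (fun x => (↑u⁻¹ : ℤ_[p]) • x) hNt
    simpa [smul_smul] using this
  clear hNt hu u hN N
  induction a generalizing t with
  | zero => simpa using h1
  | succ a ih =>
    rw [pow_succ, mul_smul] at h1
    have h2 := ih ((p : ℤ_[p]) • t) (by rw [map_smul, ht, smul_zero]) h1
    rw [p_smul_eq] at h2
    obtain ⟨y, hy, rfl⟩ := tors_lemma t h2
    rw [comp_one_tmul] at ht
    rw [S.inj hs y hy ht, TensorProduct.tmul_zero]

/-- Nakayama's lemma for `ℤ_p`. -/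
lemma eq_bot_of_div {N : Type*} [AddCommGroup N] [Module ℤ_[p] N] (P : Submodule ℤ_[p] N)
    (hP : P.FG) (h : ∀ x ∈ P, ∃ y ∈ P, p • y = x) : P = ⊥ := by
  apply Submodule.eq_bot_of_le_smul_of_le_jacobson_bot (IsLocalRing.maximalIdeal ℤ_[p]) P hP
  · intro x hx
    obtain ⟨y, hy, rfl⟩ := h x hx
    rw [← p_smul_eq']
    apply Submodule.smul_mem_smul _ hy
    rw [PadicInt.maximalIdeal_eq_span_p]
    exact Ideal.mem_span_singleton_self _
  · rw [IsLocalRing.jacobson_eq_maximalIdeal ⊥ bot_ne_top]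

lemma eq_top_of_div {N : Type*} [AddCommGroup N] [Module ℤ_[p] N] [Module.Finite ℤ_[p] N]
    (P : Submodule ℤ_[p] N) (h : ∀ x, ∃ y, x - p • y ∈ P) : P = ⊤ := by
  have h1 : (⊤ : Submodule ℤ_[p] (N ⧸ P)) = ⊥ := by
    apply eq_bot_of_div _ Module.Finite.fg_top
    intro x _
    obtain ⟨x, rfl⟩ := P.mkQ_surjective x
    obtain ⟨y, hy⟩ := h x
    refine ⟨P.mkQ y, trivial, ?_⟩
    rw [← map_nsmul, eq_comm, ← sub_eq_zero, ← map_sub, Submodule.mkQ_apply,
      Submodule.Quotient.mk_eq_zero]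
    exact hy
  rw [eq_top_iff]
  intro x _
  have : P.mkQ x ∈ (⊤ : Submodule ℤ_[p] (N ⧸ P)) := trivial
  rw [h1, Submodule.mem_bot] at this
  simpa using this

/-- multiplication by `p` is injective on a finitely generated group on which it is surjective -/
lemma eq_zero_of_div [Module.Finite ℤ A] (P : Submodule ℤ A) (h : ∀ x ∈ P, ∃ y ∈ P, p • y = x)
    (x : A) (hx : x ∈ P) (hx0 : p • x = 0) : x = 0 := by
  let f : P →ₗ[ℤ] P := (p : ℤ) • LinearMap.id
  have hf : Function.Surjective f := by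
    intro ⟨x, hx⟩
    obtain ⟨y, hy, rfl⟩ := h x hx
    exact ⟨⟨y, hy⟩, by ext; simp [f]⟩
  have hi := IsNoetherian.injective_of_surjective_endomorphism f hf
  have : (⟨x, hx⟩ : P) = 0 := by
    apply hi
    ext
    simpa [f] using hx0
  simpa using this

/-- the kernel of `κ'` is divisible by `p` -/
lemma ker_div (S : Kummer p T κ κ') (S' : Kummer p T' κ' κ'') (x : A') (hx : κ' x = 0) :
    ∃ y, κ' y = 0 ∧ p • y = x := by
  obtain ⟨y, rfl⟩ := S'.div x ⟨0, by rw [hx, smul_zero]⟩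
  obtain ⟨z, hz, hz'⟩ := S.lift (κ' y) (by rw [← map_nsmul, hx])
  exact ⟨y - z, by rw [map_sub, hz', sub_self], by rw [smul_sub, hz, sub_zero]⟩

/-- the kernel of `ℤ_p ⊗ A' → H'` is divisible by `p` -/
lemma ker_comp_div (S : Kummer p T κ κ') (S' : Kummer p T' κ' κ'') (t : ℤ_[p] ⊗[ℤ] A')
    (ht : comp p κ' t = 0) : ∃ s, comp p κ' s = 0 ∧ p • s = t := by
  obtain ⟨s, rfl⟩ := S'.div_comp t ⟨0, by rw [ht, smul_zero]⟩
  obtain ⟨z, hz, hz'⟩ := S.lift (comp p κ' s) (by rw [← map_nsmul, ht])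
  exact ⟨s - 1 ⊗ₜ z, by rw [map_sub, comp_one_tmul, hz', sub_self], by
    rw [smul_sub, ← TensorProduct.tmul_smul, hz, TensorProduct.tmul_zero, sub_zero]⟩

lemma inj_of_fg (S : Kummer p T κ κ') (S' : Kummer p T' κ' κ'') [Module.Finite ℤ A'] :
    Function.Injective (comp p κ') := by
  rw [← LinearMap.ker_eq_bot]
  apply eq_bot_of_div
  · exact IsNoetherian.noetherian _
  · intro t ht
    obtain ⟨s, hs, rfl⟩ := ker_comp_div S S' t ht
    exact ⟨s, hs, rfl⟩

lemma surj_of_fg (S : Kummer p T κ κ') (S' : Kummer p T' κ' κ'') [Module.Finite ℤ A']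
    [Module.Finite ℤ_[p] H] : Function.Surjective (comp p κ) := by
  rw [← LinearMap.range_eq_top]
  apply eq_top_of_div
  intro h
  have h1 : κ' (S.bock (S.red' h)) = 0 := by
    rw [S.comm_bock, S.bock'_eq_zero]
    exact ⟨h, rfl⟩
  have h2 : S.bock (S.red' h) = 0 := by
    apply eq_zero_of_div (p := p) (LinearMap.ker κ'.toIntLinearMap)
    · intro x hx
      obtain ⟨y, hy, rfl⟩ := ker_div S S' x hx
      exact ⟨y, hy, rfl⟩
    · exact h1
    · exact (S.mem_bock _).2 ⟨_, rfl⟩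
  obtain ⟨x, hx⟩ := (S.bock_eq_zero _).1 h2
  rw [← S.comm_red, ← sub_eq_zero, ← map_sub, S.red'_eq_zero] at hx
  obtain ⟨y, hy⟩ := hx
  refine ⟨-y, 1 ⊗ₜ x, ?_⟩
  rw [comp_one_tmul, smul_neg, hy]
  abel

end

end Pool.Agent.H860.WE
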