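import Mathlib

/-!
# Comparison maps `ℤ_p ⊗ A → H` and Kummer sequences
-/

open TensorProduct Module

namespace Pool.Agent.H860.WE

/-- `x` is a torsion element. -/
def IsTor {A : Type*} [AddMonoid A] (x : A) : Prop := ∃ N : ℕ, N ≠ 0 ∧ N • x = 0

section Local

variable {p : ℕ} [Fact p.Prime] {A A' H H' T : Type*}
variable [AddCommGroup A] [AddCommGroup A'] [AddCommGroup H] [Module ℤ_[p] H]
variable [AddCommGroup H'] [Module ℤ_[p] H'] [AddCommGroup T]

variable (p) in
/-- The comparison map `ℤ_p ⊗ A → H` given by an additive map `A → H`. -/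
noncomputable def comp (κ : A →+ H) : ℤ_[p] ⊗[ℤ] A →ₗ[ℤ_[p]] H :=
  LinearMap.liftBaseChange ℤ_[p] κ.toIntLinearMap

@[simp] lemma comp_tmul (κ : A →+ H) (z : ℤ_[p]) (a : A) : comp p κ (z ⊗ₜ a) = z • κ a := by
  simp [comp]

lemma comp_one_tmul (κ : A →+ H) (a : A) : comp p κ (1 ⊗ₜ a) = κ a := by
  simp

variable (p) in
/-- The kernel and the cokernel of `ℤ_p ⊗ A → H` are torsion groups. -/
def RatIso (κ : A →+ H) : Prop :=
  (∀ t, comp p κ t = 0 → IsTor t) ∧ ∀ h : H, ∃ N : ℕ, N ≠ 0 ∧ ∃ t, comp p κ t = N • h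

lemma tmul_decomp (t : ℤ_[p] ⊗[ℤ] A) : ∃ (x : A) (t' : ℤ_[p] ⊗[ℤ] A), t = 1 ⊗ₜ x + (p : ℤ_[p]) • t' := by
  induction t using TensorProduct.induction_on with
  | zero => exact ⟨0, 0, by simp⟩
  | tmul z a =>
    obtain ⟨k, -, hk⟩ := PadicInt.exists_mem_range z
    rw [PadicInt.maximalIdeal_eq_span_p, Ideal.mem_span_singleton] at hk
    obtain ⟨z', hz'⟩ := hk
    refine ⟨k • a, z' ⊗ₜ a, ?_⟩
    have : z = k + p * z' := by rw [← hz']; ring
    rw [this, TensorProduct.add_tmul, TensorProduct.smul_tmul', smul_eq_mul]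
    congr 1
    rw [← TensorProduct.smul_tmul, nsmul_eq_mul, mul_one]
  | add t s ht hs =>
    obtain ⟨x, t', h⟩ := ht
    obtain ⟨y, s', h'⟩ := hs
    refine ⟨x + y, t' + s', ?_⟩
    rw [h, h', TensorProduct.tmul_add, smul_add]
    abel

lemma p_smul_eq (t : ℤ_[p] ⊗[ℤ] A) : (p : ℤ_[p]) • t = p • t := by
  rw [Nat.cast_smul_eq_nsmul]

lemma p_smul_eq' (t : H) : (p : ℤ_[p]) • t = p • t := by
  rw [Nat.cast_smul_eq_nsmul]

lemma tors_lemma (t : ℤ_[p] ⊗[ℤ] A) (ht : p • t = 0) : ∃ y : A, p • y = 0 ∧ t = 1 ⊗ₜ y := by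
  let m : A →ₗ[ℤ] A := (p : ℤ) • LinearMap.id
  let K := LinearMap.ker m
  have hex : Function.Exact K.subtype m := LinearMap.exact_subtype_ker_map m
  have hex' := Module.Flat.lTensor_exact ℤ_[p] hex
  have h0 : (LinearMap.lTensor ℤ_[p] m) t = 0 := by
    have : (LinearMap.lTensor ℤ_[p] m) = (p : ℤ) • LinearMap.id := by
      rw [show m = (p : ℤ) • LinearMap.id from rfl, LinearMap.lTensor_smul, LinearMap.lTensor_id]
    rw [this]
    simpa using ht
  obtain ⟨s, hs⟩ := (hex' t).1 h0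
  obtain ⟨y, s', hs'⟩ := tmul_decomp s
  have hk : ∀ s : ℤ_[p] ⊗[ℤ] K, p • s = 0 := by
    intro s
    induction s using TensorProduct.induction_on with
    | zero => simp
    | tmul z a =>
      rw [← TensorProduct.tmul_smul]
      have : p • a = 0 := by
        have := a.2
        apply Subtype.ext
        simpa [K, m] using this
      rw [this, TensorProduct.tmul_zero]
    | add a b ha hb => rw [smul_add, ha, hb, add_zero]
  rw [p_smul_eq, hk, add_zero] at hs'
  refine ⟨y, ?_, ?_⟩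
  · have := y.2
    simpa [K, m] using this
  · rw [← hs, hs']
    simp

lemma isTor_of_one_tmul (x : A) (h : (1 : ℤ_[p]) ⊗ₜ[ℤ] x = 0) : IsTor x := by
  by_contra hx
  let f : ℤ →ₗ[ℤ] A := LinearMap.toSpanSingleton ℤ A x
  have hf : Function.Injective f := by
    rw [injective_iff_map_eq_zero]
    intro k hk
    by_contra hk0
    apply hx
    refine ⟨k.natAbs, by simpa using hk0, ?_⟩
    have hk' : k • x = 0 := by simpa [f] using hk
    rcases Int.natAbs_eq k with h1 | h1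
    · rw [h1] at hk'
      rwa [natCast_zsmul] at hk'
    · rw [h1, neg_smul, natCast_zsmul, neg_eq_zero] at hk'
      exact hk'
  have hi := Module.Flat.lTensor_preserves_injective_linearMap (M := ℤ_[p]) f hf
  have h1 : (1 : ℤ_[p]) ⊗ₜ[ℤ] (1 : ℤ) = 0 := by
    apply hi
    simp [f, h]
  have h2 := congrArg (TensorProduct.rid ℤ ℤ_[p]) h1
  simp at h2

lemma eq_zero_of_one_tmul (x : A) (hx : p • x = 0) (h : (1 : ℤ_[p]) ⊗ₜ[ℤ] x = 0) : x = 0 := by
  by_contra hx0
  let f0 : ZMod p →+ A := ZMod.lift p ⟨(zmultiplesHom A) x, by simpa using hx⟩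
  let f : ZMod p →ₗ[ℤ] A := f0.toIntLinearMap
  have hf : Function.Injective f := by
    have : Function.Injective f0 := by
      rw [injective_iff_map_eq_zero]
      intro a ha
      obtain ⟨k, rfl⟩ := ZMod.intCast_surjective a
      have hk : k • x = 0 := by simpa [f0] using ha
      have ho : addOrderOf x = p := addOrderOf_eq_prime hx hx0
      have := (addOrderOf_dvd_iff_zsmul_eq_zero (x := x) (i := k)).2 hk
      rw [ho] at this
      exact (ZMod.intCast_zmod_eq_zero_iff_dvd k p).2 this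
    exact this
  have hi := Module.Flat.lTensor_preserves_injective_linearMap (M := ℤ_[p]) f hf
  have h1 : (1 : ℤ_[p]) ⊗ₜ[ℤ] (1 : ZMod p) = 0 := by
    apply hi
    have : f (1 : ZMod p) = x := by
      have h1 : f0 ((1 : ℤ) : ZMod p) = x := by
        rw [show f0 = ZMod.lift p ⟨(zmultiplesHom A) x, by simpa using hx⟩ from rfl, ZMod.lift_coe]
        simp
      rw [Int.cast_one] at h1
      exact h1
    simp [this, h]
  let g : ℤ_[p] ⊗[ℤ] ZMod p →ₗ[ℤ] ZMod p :=
    TensorProduct.lift ((LinearMap.mul ℤ (ZMod p)).comp (PadicInt.toZMod (p := p)).toAddMonoidHom.toIntLinearMap)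
  have h2 := congrArg g h1
  rw [map_zero] at h2
  have h3 : g ((1 : ℤ_[p]) ⊗ₜ[ℤ] (1 : ZMod p)) = (PadicInt.toZMod (p := p) 1) * 1 := rfl
  rw [h3, map_one, mul_one] at h2
  exact one_ne_zero h2

end Local

end Pool.Agent.H860.WE
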