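import Pool.Agent.H860.WE.Global

/-!
# Finite generation of Weil-étale motivic cohomology from one prime
-/

set_option linter.unusedSectionVars false

open TensorProduct Module Polynomial

namespace Pool.Agent.H860.WE

namespace WeilEtale

variable {d : ℕ} (X : WeilEtale d) {n : ℕ} {ℓ : Nat.Primes}

/-! ### Local statements -/

lemma K_of_L (h : X.L n) : X.K n := by
  intro ℓ i
  have : ∀ j, Module.Finite ℤ (X.M n j) := fun j => Module.Finite.iff_addGroup_fg.2 (h j)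
  have S1 := X.kummer ℓ n (i - 1) i (by ring)
  have S2 := X.kummer ℓ n i (i + 1) (by ring)
  have S3 := X.kummer ℓ n (i + 1) (i + 1 + 1) (by ring)
  exact ⟨inj_of_fg S1 S2, surj_of_fg S2 S3⟩

lemma bij_of_KQ (h : X.KQ ℓ n) (i : ℤ) : Function.Bijective (comp ℓ (X.κ ℓ n i)) := by
  have hs : ∀ i : ℤ, Function.Surjective (comp ℓ (X.κ ℓ n i)) := fun i =>
    surj_of_rat (X.kummer ℓ n (i - 1) i (by ring)) (X.kummer ℓ n i (i + 1) (by ring)) (h i).2
  exact ⟨inj_of_rat (X.kummer ℓ n (i - 1) i (by ring)) (hs _) (h i).1, hs i⟩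

lemma KQ_of_bij (h : ∀ i, Function.Bijective (comp ℓ (X.κ ℓ n i))) : X.KQ ℓ n := by
  intro i
  refine ⟨fun t ht => ?_, fun x => ?_⟩
  · rw [(injective_iff_map_eq_zero _).1 (h i).1 t ht]
    exact isTor_zero
  · obtain ⟨t, rfl⟩ := (h i).2 x
    exact ⟨1, one_ne_zero, t, (one_smul _ _).symm⟩

lemma K_iff : X.K n ↔ ∀ ℓ, X.KQ ℓ n :=
  ⟨fun h ℓ => X.KQ_of_bij (h ℓ), fun h ℓ => X.bij_of_KQ (h ℓ)⟩

/-! ### Consequences of the rational comparison isomorphism for one prime -/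

lemma mem_ker {v : X.V ℓ n} : v ∈ LinearMap.ker (X.F ℓ n - 1) ↔ X.F ℓ n v = v := by
  rw [LinearMap.mem_ker, LinearMap.sub_apply, Module.End.one_apply, sub_eq_zero]

lemma other_of_KQ (h : X.KQ ℓ n) (i : ℤ) (h0 : i ≠ 2 * n) (h1 : i ≠ 2 * n + 1) (x : X.M n i) :
    IsTor x := (h i).isTor x (X.pure ℓ n i h0 h1 _)

lemma e2_surj (h : ∀ i : ℤ, i ≠ 2 * n → i ≠ 2 * n + 1 → ∀ x : X.M n i, IsTor x)
    (y : X.M n (2 * n + 1)) : ∃ N : ℕ, N ≠ 0 ∧ ∃ x, X.e2 n x = N • y := by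
  exact X.e_exact n (2 * n) (2 * n + 1) (2 * n + 1 + 1) rfl rfl y
    (h _ (by omega) (by omega) _)

lemma e2_inj (h : ∀ i : ℤ, i ≠ 2 * n → i ≠ 2 * n + 1 → ∀ x : X.M n i, IsTor x)
    (x : X.M n (2 * n)) (hx : IsTor (X.e2 n x)) : IsTor x := by
  obtain ⟨N, hN, y, hy⟩ := X.e_exact n (2 * n - 1) (2 * n) (2 * n + 1) (by ring) rfl x hx
  have h1 := (h _ (by omega) (by omega) y).map (X.e n (2 * n - 1) (2 * n) (by ring))
  rw [hy] at h1
  exact h1.of_nsmul hN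

lemma smul_mem_iff {W : Type} [AddCommGroup W] [Module ℚ_[ℓ] W] (S : Submodule ℚ_[ℓ] W) {N : ℕ}
    (hN : N ≠ 0) {w : W} (h : N • w ∈ S) : w ∈ S := by
  rw [← Nat.cast_smul_eq_nsmul ℚ_[ℓ]] at h
  exact (S.smul_mem_iff (by exact_mod_cast hN)).1 h

lemma tate_of_KQ (h : X.KQ ℓ n) : X.Tate ℓ n := by
  intro v hv
  obtain ⟨N, hN, x, hx⟩ := X.α_surj ℓ n v hv
  obtain ⟨M, hM, t, ht⟩ := (h (2 * n)).2 x
  apply smul_mem_iff _ hN
  rw [← hx]
  apply smul_mem_iff _ hM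
  rw [← map_nsmul, ← ht]
  apply map_comp_mem _ (X.α_smul ℓ n)
  intro a
  exact Submodule.subset_span ⟨a, rfl⟩

/-- one is a semisimple eigenvalue -/
lemma sup_of_KQ (h : X.KQ ℓ n) :
    LinearMap.ker (X.F ℓ n - 1) ⊔ LinearMap.range (X.F ℓ n - 1) = ⊤ := by
  rw [eq_top_iff]
  intro v _
  set S := LinearMap.ker (X.F ℓ n - 1) ⊔ LinearMap.range (X.F ℓ n - 1) with hS
  let S' : Submodule ℚ_[ℓ] (X.V ℓ n ⧸ LinearMap.range (X.F ℓ n - 1)) :=
    (LinearMap.ker (X.F ℓ n - 1)).map (LinearMap.range (X.F ℓ n - 1)).mkQ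
  have h1 : (Submodule.Quotient.mk v : X.V ℓ n ⧸ LinearMap.range (X.F ℓ n - 1)) ∈ S' := by
    obtain ⟨N, hN, x, hx⟩ := X.γ_surj ℓ n (Submodule.Quotient.mk v)
    obtain ⟨M, hM, t, ht⟩ := (h (2 * n + 1)).2 x
    apply smul_mem_iff _ hN
    rw [← hx]
    apply smul_mem_iff _ hM
    rw [← map_nsmul, ← ht]
    apply map_comp_mem _ (X.γ_smul ℓ n)
    intro y
    obtain ⟨L, hL, z, hz⟩ := X.e2_surj (X.other_of_KQ h) y
    apply smul_mem_iff _ hL
    rw [← map_nsmul, ← map_nsmul, ← hz, X.γ_e]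
    exact ⟨_, X.mem_ker.2 (X.α_inv ℓ n _), rfl⟩
  obtain ⟨w, hw, hw'⟩ := h1
  have h2 : v - w ∈ LinearMap.range (X.F ℓ n - 1) := by
    rw [← Submodule.Quotient.mk_eq_zero, Submodule.Quotient.mk_sub, sub_eq_zero]
    exact hw'.symm
  have : v = w + (v - w) := by abel
  rw [this]
  exact Submodule.add_mem_sup hw h2

/-! ### The data that imply the statements -/

/-- Elements `x i` of `H^(2n)_W(X, ℤ(n))` that are a basis up to torsion, whose classes are linearly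
independent for all primes, and whose number is the multiplicity of the eigenvalue one; and maps to
`ℤ ^ s`. -/
structure Data (n r s : ℕ) where
  x : Fin r → X.M n (2 * n)
  indep : ∀ ℓ : Nat.Primes, LinearIndependent ℚ_[ℓ] (fun i => X.α ℓ n (X.κ ℓ n _ (x i)))
  mult : (X.P n).rootMultiplicity 1 ≤ r
  spanM : ∀ y : X.M n (2 * n), ∃ N : ℕ, N ≠ 0 ∧ ∃ c : Fin r → ℤ, N • y = ∑ i, c i • x i
  other : ∀ i : ℤ, i ≠ 2 * n → i ≠ 2 * n + 1 → ∀ x : X.M n i, IsTor x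
  φ : X.M n (2 * n) →+ (Fin s → ℤ)
  φ_tor : ∀ y, φ y = 0 → IsTor y
  ψ : X.M n (2 * n + 1) →+ (Fin s → ℤ)
  ψ_tor : ∀ y, ψ y = 0 → IsTor y

variable {X} {r s : ℕ} (D : X.Data n r s)

/-- the class of `x` -/
abbrev cl (X : WeilEtale d) (ℓ : Nat.Primes) (n : ℕ) (x : X.M n (2 * n)) : X.V ℓ n :=
  X.α ℓ n (X.κ ℓ n _ x)

include D in
lemma Data.sup (ℓ : Nat.Primes) : LinearMap.ker (X.F ℓ n - 1) ⊔ LinearMap.range (X.F ℓ n - 1) = ⊤ ∧
    Submodule.span ℚ_[ℓ] (Set.range fun i => X.cl ℓ n (D.x i)) = LinearMap.ker (X.F ℓ n - 1) := by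
  have hle : Submodule.span ℚ_[ℓ] (Set.range fun i => X.cl ℓ n (D.x i)) ≤
      LinearMap.ker (X.F ℓ n - 1) := by
    rw [Submodule.span_le]
    rintro _ ⟨i, rfl⟩
    exact X.mem_ker.2 (X.α_inv ℓ n _)
  have hr : finrank ℚ_[ℓ] (Submodule.span ℚ_[ℓ] (Set.range fun i => X.cl ℓ n (D.x i))) = r := by
    rw [finrank_span_eq_card (D.indep ℓ), Fintype.card_fin]
  have h1 := Submodule.finrank_mono hle
  rw [hr] at h1
  have h2 := sup_of_finrank_ker (X.F ℓ n) (by rw [X.mult]; exact D.mult.trans h1)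
  refine ⟨h2.1, Submodule.eq_of_le_of_finrank_le hle ?_⟩
  rw [h2.2, hr, X.mult]
  exact D.mult

include D in
lemma Data.KQ (ℓ : Nat.Primes) : X.KQ ℓ n := by
  intro i
  by_cases h0 : i = 2 * n
  · subst h0
    apply ratIso_of (X.α ℓ n) (X.α_smul ℓ n) (X.α_tor ℓ n) D.x (D.indep ℓ) D.spanM
    intro h
    have h1 := (D.sup ℓ).2
    unfold cl at h1
    rw [h1]
    exact X.mem_ker.2 (X.α_inv ℓ n _)
  by_cases h1 : i = 2 * n + 1
  · subst h1
    have hγ : ∀ i, X.γ ℓ n (X.κ ℓ n _ (X.e2 n (D.x i))) =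
        (LinearMap.range (X.F ℓ n - 1)).mkQ (X.cl ℓ n (D.x i)) := fun i => X.γ_e ℓ n _
    apply ratIso_of (X.γ ℓ n) (X.γ_smul ℓ n) (X.γ_tor ℓ n) (fun i => X.e2 n (D.x i))
    · simp only [hγ]
      apply (D.indep ℓ).map
      have h1 := (D.sup ℓ).2
      unfold cl at h1
      rw [h1, Submodule.ker_mkQ, disjoint_iff]
      exact disjoint_of_sup _ (D.sup ℓ).1
    · intro y
      obtain ⟨N, hN, x, hx⟩ := X.e2_surj D.other y
      obtain ⟨M, hM, c, hc⟩ := D.spanM x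
      refine ⟨M * N, mul_ne_zero hM hN, c, ?_⟩
      rw [mul_nsmul', ← hx, ← map_nsmul, hc, map_sum]
      simp only [map_zsmul]
    · intro h
      simp only [hγ]
      obtain ⟨v, hv⟩ := Submodule.mkQ_surjective _ (X.γ ℓ n h)
      have : v ∈ LinearMap.ker (X.F ℓ n - 1) ⊔ LinearMap.range (X.F ℓ n - 1) := by
        rw [(D.sup ℓ).1]; trivial
      obtain ⟨a, ha, b, hb, rfl⟩ := Submodule.mem_sup.1 this
      rw [← (D.sup ℓ).2] at ha
      have hb' : (LinearMap.range (X.F ℓ n - 1)).mkQ b = 0 := by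
        rw [Submodule.mkQ_apply, Submodule.Quotient.mk_eq_zero]
        exact hb
      rw [map_add, hb', add_zero] at hv
      rw [← hv]
      have h2 := Submodule.mem_map_of_mem (f := (LinearMap.range (X.F ℓ n - 1)).mkQ) ha
      rw [Submodule.map_span, ← Set.range_comp] at h2
      exact h2
  · exact ratIso_of_isTor (D.other i h0 h1) (X.pure ℓ n i h0 h1)

end WeilEtale

/-- The primes at which a nonzero rational number is not a unit are finite in number. -/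
lemma finite_norm_ne_one (q : ℚ) (hq : q ≠ 0) :
    {ℓ : Nat.Primes | ‖((q : ℚ_[ℓ]))‖ ≠ 1}.Finite := by
  have h : {ℓ : Nat.Primes | ‖((q : ℚ_[ℓ]))‖ ≠ 1} ⊆
      (fun ℓ : Nat.Primes => (ℓ : ℕ)) ⁻¹' ((q.num.natAbs * q.den).primeFactors : Set ℕ) := by
    intro ℓ hℓ
    simp only [Set.mem_preimage, Finset.mem_coe, Nat.mem_primeFactors]
    have hn : q.num.natAbs ≠ 0 := by simpa using hq
    refine ⟨ℓ.2, ?_, mul_ne_zero hn q.den_nz⟩
    by_contra hd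
    apply hℓ
    rw [ℓ.2.dvd_mul, not_or] at hd
    have h1 : ‖((q.num : ℤ) : ℚ_[ℓ])‖ = 1 := by
      rw [Padic.norm_intCast_eq_one_iff, Int.isCoprime_iff_gcd_eq_one, Int.gcd_comm, Int.gcd,
        Int.natAbs_natCast]
      exact (ℓ.2.coprime_iff_not_dvd).2 hd.1
    have h2 : ‖((q.den : ℕ) : ℚ_[ℓ])‖ = 1 := by
      rw [Padic.norm_natCast_eq_one_iff]
      exact (ℓ.2.coprime_iff_not_dvd).2 hd.2
    have h3 : (q : ℚ_[ℓ]) = (q.num : ℚ_[ℓ]) / (q.den : ℚ_[ℓ]) := by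
      rw [← Rat.cast_intCast, ← Rat.cast_natCast, ← Rat.cast_div, Rat.num_div_den]
    rw [h3, norm_div, h1, h2, div_one]
  apply Set.Finite.subset _ h
  apply Set.Finite.preimage
  · intro a _ b _ hab
    exact Subtype.ext hab
  · exact Finset.finite_toSet _

namespace WeilEtale

variable {d : ℕ} {X : WeilEtale d} {n r s : ℕ}

lemma odd_torsionfree (h : ∀ ℓ, LinearMap.ker (X.F ℓ n - 1) ⊔ LinearMap.range (X.F ℓ n - 1) = ⊤) :
    {ℓ : Nat.Primes | ∃ h : X.H ℓ n (2 * n + 1), h ≠ 0 ∧ IsTor h}.Finite := by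
  obtain ⟨R, hR, hR'⟩ := (X.P n).exists_eq_pow_rootMultiplicity_mul_and_not_dvd
    (X.P_monic n).ne_zero 1
  rw [dvd_iff_isRoot, IsRoot.def] at hR'
  apply ((X.lattice n).union (finite_norm_ne_one _ hR')).subset
  intro ℓ hℓ
  by_contra hc
  rw [Set.mem_union, not_or] at hc
  obtain ⟨⟨Λ, _, _, _, _, f, ι, hι, hιs, hιf, hch, ⟨E⟩⟩, h2⟩ : _ ∧ _ :=
    ⟨not_not.1 hc.1, hc.2⟩
  have h2 : ‖(((R.eval 1 : ℚ)) : ℚ_[ℓ])‖ = 1 := not_not.1 h2
  -- the characteristic polynomial over `ℤ_ℓ`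
  have hinj : Function.Injective (algebraMap ℤ_[ℓ] ℚ_[ℓ]) := IsFractionRing.injective _ _
  obtain ⟨q, hq, -⟩ := f.charpoly.exists_eq_pow_rootMultiplicity_mul_and_not_dvd
    (f.charpoly_monic).ne_zero 1
  have hm : f.charpoly.rootMultiplicity 1 = (X.P n).rootMultiplicity 1 := by
    rw [eq_rootMultiplicity_map hinj, hch, map_one,
      eq_rootMultiplicity_map (algebraMap ℚ ℚ_[ℓ]).injective, map_one]
  have hqR : q.map (algebraMap ℤ_[ℓ] ℚ_[ℓ]) = R.map (algebraMap ℚ ℚ_[ℓ]) := by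
    have h3 := hch
    rw [hq, hR, hm, Polynomial.map_mul, Polynomial.map_mul, Polynomial.map_pow,
      Polynomial.map_pow, Polynomial.map_sub, Polynomial.map_sub, map_X, map_X, map_C, map_C,
      map_one, map_one] at h3
    exact mul_left_cancel₀ (pow_ne_zero _ (X_sub_C_ne_zero _)) h3
  have hev : ((q.eval 1 : ℤ_[ℓ]) : ℚ_[ℓ]) = ((R.eval 1 : ℚ) : ℚ_[ℓ]) := by
    have h3 := congrArg (Polynomial.eval 1) hqR
    rw [← map_one (algebraMap ℤ_[ℓ] ℚ_[ℓ]), eval_map_algebraMap, aeval_algebraMap_apply, map_one,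
      ← map_one (algebraMap ℚ ℚ_[ℓ]), eval_map_algebraMap, aeval_algebraMap_apply] at h3
    simpa using h3
  have hu : IsUnit (q.eval 1) := by
    rw [PadicInt.isUnit_iff, PadicInt.norm_def, hev, h2]
  obtain ⟨u, hu⟩ := hu
  obtain ⟨S, hS⟩ := X_sub_C_dvd_sub_C_eval (a := (1 : ℤ_[ℓ])) (p := q)
  set N := f - 1 with hN
  have hNa : aeval f (Polynomial.X - C (1 : ℤ_[ℓ])) = N := by
    rw [map_sub, aeval_X, aeval_C, map_one]
  have hCH : N ^ (X.P n).rootMultiplicity 1 * (algebraMap ℤ_[ℓ] _ (u : ℤ_[ℓ]) + N * aeval f S) = 0 := by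
    have h3 := LinearMap.aeval_self_charpoly f
    rw [sub_eq_iff_eq_add] at hS
    rw [hq, hm, map_mul, map_pow, hNa, hS, map_add, map_mul, hNa, aeval_C, ← hu, add_comm] at h3
    exact h3
  have hss : ∀ y, N (N y) = 0 → N y = 0 := by
    intro y hy
    have hιN : ∀ y, ι (N y) = (X.F ℓ n - 1) (ι y) := by
      intro y
      rw [hN, LinearMap.sub_apply, map_sub, hιf, LinearMap.sub_apply, Module.End.one_apply,
        Module.End.one_apply]
    apply hι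
    rw [map_zero, hιN]
    apply ker_of_disjoint _ (disjoint_of_sup _ (h ℓ)) 1
    rw [pow_succ, pow_one, Module.End.mul_apply, ← hιN, ← hιN, hy, map_zero]
  obtain ⟨x, hx0, M, hM, hx⟩ := hℓ
  apply hx0
  apply E.injective
  rw [map_zero]
  obtain ⟨y, hy⟩ := Submodule.mkQ_surjective _ (E x)
  rw [← hy]
  rw [Submodule.mkQ_apply, Submodule.Quotient.mk_eq_zero]
  have h4 : (M : ℤ_[ℓ]) • y ∈ LinearMap.range N := by
    rw [← Submodule.Quotient.mk_eq_zero, Submodule.Quotient.mk_smul, Nat.cast_smul_eq_nsmul]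
    have h5 := congrArg E hx
    rw [map_nsmul, map_zero, ← hy] at h5
    exact h5
  obtain ⟨z, hz⟩ := h4
  obtain ⟨z', hz'⟩ := coker_torsionfree N _ u (aeval f S)
    (by rw [← hNa, ← map_mul, ← map_mul, mul_comm]) hCH hss (M : ℤ_[ℓ])
    (fun y hy => (smul_eq_zero.1 hy).resolve_left (by exact_mod_cast hM)) y ⟨z, hz.symm⟩
  exact ⟨z', hz'.symm⟩

lemma Data.L (D : X.Data n r s) : X.L n := by
  intro i
  by_cases h0 : i = 2 * n
  · subst h0
    exact fg_of (fun ℓ => X.κ ℓ n _) (fun ℓ => (X.bij_of_KQ (D.KQ ℓ) _).1) (X.torsionfree n)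
      D.φ D.φ_tor
  by_cases h1 : i = 2 * n + 1
  · subst h1
    exact fg_of (fun ℓ => X.κ ℓ n _) (fun ℓ => (X.bij_of_KQ (D.KQ ℓ) _).1)
      (odd_torsionfree fun ℓ => (D.sup ℓ).1) D.ψ D.ψ_tor
  · refine fg_of (fun ℓ => X.κ ℓ n _) (fun ℓ => (X.bij_of_KQ (D.KQ ℓ) _).1)
      ((X.pure_zero n i h0 h1).subset ?_) (s := 0) 0 (fun x _ => D.other i h0 h1 x)
    rintro ℓ ⟨h, hh, -⟩
    exact ⟨h, hh⟩

/-! ### The data for `n > d` -/

lemma L_of_large {ℓ : Nat.Primes} (hn : d < n) (h : X.KQ ℓ n) : X.L n := by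
  have hV := fun ℓ => X.vanish ℓ n hn
  refine Data.L (r := 0) (s := 0) (X := X) ⟨Fin.elim0, fun ℓ => linearIndependent_empty_type, ?_,
    ?_, X.other_of_KQ h, 0, fun y _ => ?_, 0, fun y _ => ?_⟩
  · rw [← X.mult ℓ, ← LinearMap.finrank_maxGenEigenspace_eq]
    have : finrank ℚ_[ℓ] (X.V ℓ n) = 0 := finrank_zero_of_subsingleton
    exact (Submodule.finrank_le _).trans this.le
  · intro y
    obtain ⟨N, hN, hy⟩ := (h _).isTor y (X.α_tor ℓ n _ (Subsingleton.elim _ _))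
    exact ⟨N, hN, 0, by rw [hy]; simp⟩
  · exact (h _).isTor y (X.α_tor ℓ n _ (Subsingleton.elim _ _))
  · have : Subsingleton (X.V ℓ n ⧸ LinearMap.range (X.F ℓ n - 1)) :=
      Quotient.instSubsingletonQuotient _
    exact (h _).isTor y (X.γ_tor ℓ n _ (Subsingleton.elim _ _))

end WeilEtale

end Pool.Agent.H860.WE
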