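import Pool.Agent.H860.WE.Final

/-!
# Weil-étale motivic cohomology: the statement over families of groups
-/

set_option linter.unusedSectionVars false

open TensorProduct Module Polynomial

namespace Pool.Agent.H860.WE

section

variable {M : ℕ → ℤ → Type} [∀ n i, AddCommGroup (M n i)]
variable {H : ∀ (ℓ : ℕ) [Fact ℓ.Prime], ℕ → ℤ → Type}
variable [∀ (ℓ : ℕ) [Fact ℓ.Prime] n i, AddCommGroup (H ℓ n i)]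
variable [∀ (ℓ : ℕ) [Fact ℓ.Prime] n i, Module ℤ_[ℓ] (H ℓ n i)]
variable {T : ∀ (ℓ : ℕ) [Fact ℓ.Prime], ℕ → ℤ → Type}
variable [∀ (ℓ : ℕ) [Fact ℓ.Prime] n i, AddCommGroup (T ℓ n i)]
variable {V : ∀ (ℓ : ℕ) [Fact ℓ.Prime], ℕ → Type}
variable [∀ (ℓ : ℕ) [Fact ℓ.Prime] n, AddCommGroup (V ℓ n)]
variable [∀ (ℓ : ℕ) [Fact ℓ.Prime] n, Module ℚ_[ℓ] (V ℓ n)]

/-- The comparison maps `κ : H^i_W(X, ℤ(n)) → H^i(X, ℤ_ℓ(n))` and the product `e` with the canonical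
class in `H^1_W(k, ℤ)`: multiplication by `ℓ` gives long exact sequences with `T ℓ n i = H^i(X, ℤ/ℓ(n))`,
the `ℤ_ℓ`-modules `H ℓ n i` are finitely generated, and the complex `(H^*_W(X, ℚ(n)), e)` is exact. -/
structure IsMotivic (T : ∀ (ℓ : ℕ) [Fact ℓ.Prime], ℕ → ℤ → Type)
    [∀ (ℓ : ℕ) [Fact ℓ.Prime] n i, AddCommGroup (T ℓ n i)]
    (κ : ∀ (ℓ : ℕ) [Fact ℓ.Prime] (n : ℕ) (i : ℤ), M n i →+ H ℓ n i)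
    (e : ∀ (n : ℕ) (i j : ℤ), i + 1 = j → (M n i →+ M n j)) : Prop where
  fin : ∀ (ℓ : ℕ) [Fact ℓ.Prime] n i, Module.Finite ℤ_[ℓ] (H ℓ n i)
  kummer : ∀ (ℓ : ℕ) [Fact ℓ.Prime] (n : ℕ) (i j : ℤ), i + 1 = j →
    Nonempty (Kummer ℓ (T ℓ n i) (κ ℓ n i) (κ ℓ n j))
  exact : ∀ (n : ℕ) (i j l : ℤ) (h : i + 1 = j) (h' : j + 1 = l) (x : M n j),
    IsTor (e n j l h' x) → ∃ N : ℕ, N ≠ 0 ∧ ∃ y, e n i j h y = N • x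

/-- The Frobenius endomorphism `F` of `V ℓ n = H^(2n)(X̄, ℚ_ℓ(n))`, and the map
`α : H^(2n)(X, ℤ_ℓ(n)) → V ℓ n`: its kernel and the cokernel of the map to the invariants are torsion
groups. The multiplicity of the eigenvalue one of `F` is the one of the root one of `P n`. -/
structure IsFrob (F : ∀ (ℓ : ℕ) [Fact ℓ.Prime] (n : ℕ), End ℚ_[ℓ] (V ℓ n)) (P : ℕ → ℚ[X])
    (α : ∀ (ℓ : ℕ) [Fact ℓ.Prime] (n : ℕ), H ℓ n (2 * n) →+ V ℓ n) : Prop where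
  fin : ∀ (ℓ : ℕ) [Fact ℓ.Prime] n, FiniteDimensional ℚ_[ℓ] (V ℓ n)
  monic : ∀ n, (P n).Monic
  mult : ∀ (ℓ : ℕ) [Fact ℓ.Prime] (n : ℕ),
    (F ℓ n).charpoly.rootMultiplicity 1 = (P n).rootMultiplicity 1
  smul : ∀ (ℓ : ℕ) [Fact ℓ.Prime] (n : ℕ) (z : ℤ_[ℓ]) (h : H ℓ n (2 * n)),
    α ℓ n (z • h) = (z : ℚ_[ℓ]) • α ℓ n h
  inv : ∀ (ℓ : ℕ) [Fact ℓ.Prime] (n : ℕ) (h : H ℓ n (2 * n)), F ℓ n (α ℓ n h) = α ℓ n h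
  tor : ∀ (ℓ : ℕ) [Fact ℓ.Prime] (n : ℕ) (h : H ℓ n (2 * n)), α ℓ n h = 0 → IsTor h
  surj : ∀ (ℓ : ℕ) [Fact ℓ.Prime] (n : ℕ) (v : V ℓ n), F ℓ n v = v →
    ∃ N : ℕ, N ≠ 0 ∧ ∃ h, α ℓ n h = N • v

/-- The map `γ : H^(2n+1)(X, ℤ_ℓ(n)) → (V ℓ n)_F`, with torsion kernel and cokernel, and its
compatibility with the product with the canonical class. -/
structure IsOdd (κ : ∀ (ℓ : ℕ) [Fact ℓ.Prime] (n : ℕ) (i : ℤ), M n i →+ H ℓ n i)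
    (e : ∀ (n : ℕ) (i j : ℤ), i + 1 = j → (M n i →+ M n j))
    (F : ∀ (ℓ : ℕ) [Fact ℓ.Prime] (n : ℕ), End ℚ_[ℓ] (V ℓ n))
    (α : ∀ (ℓ : ℕ) [Fact ℓ.Prime] (n : ℕ), H ℓ n (2 * n) →+ V ℓ n)
    (γ : ∀ (ℓ : ℕ) [Fact ℓ.Prime] (n : ℕ),
      H ℓ n (2 * n + 1) →+ V ℓ n ⧸ LinearMap.range (F ℓ n - 1)) : Prop where
  smul : ∀ (ℓ : ℕ) [Fact ℓ.Prime] (n : ℕ) (z : ℤ_[ℓ]) (h : H ℓ n (2 * n + 1)),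
    γ ℓ n (z • h) = (z : ℚ_[ℓ]) • γ ℓ n h
  tor : ∀ (ℓ : ℕ) [Fact ℓ.Prime] (n : ℕ) (h : H ℓ n (2 * n + 1)), γ ℓ n h = 0 → IsTor h
  surj : ∀ (ℓ : ℕ) [Fact ℓ.Prime] (n : ℕ) (w : V ℓ n ⧸ LinearMap.range (F ℓ n - 1)),
    ∃ N : ℕ, N ≠ 0 ∧ ∃ h, γ ℓ n h = N • w
  comp : ∀ (ℓ : ℕ) [Fact ℓ.Prime] (n : ℕ) (x : M n (2 * n)),
    γ ℓ n (κ ℓ n _ (e n (2 * n) (2 * n + 1) rfl x)) = Submodule.Quotient.mk (α ℓ n (κ ℓ n _ x))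

/-- A free `ℤ_ℓ`-module `Λ` with an endomorphism `f` with characteristic polynomial `P`, mapped
injectively to `V` with its endomorphism `F`, such that `H` is isomorphic to the coinvariants of `f`. -/
def Lattice (ℓ : ℕ) [Fact ℓ.Prime] (H V : Type) [AddCommGroup H] [AddCommGroup V] [Module ℚ_[ℓ] V]
    (F : End ℚ_[ℓ] V) (P : ℚ[X]) : Prop :=
  ∃ (Λ : Type) (_ : AddCommGroup Λ) (_ : Module ℤ_[ℓ] Λ)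
    (_ : Module.Finite ℤ_[ℓ] Λ) (_ : Module.Free ℤ_[ℓ] Λ) (f : End ℤ_[ℓ] Λ) (ι : Λ →+ V),
    Function.Injective ι ∧ (∀ (z : ℤ_[ℓ]) x, ι (z • x) = (z : ℚ_[ℓ]) • ι x) ∧
    (∀ x, ι (f x) = F (ι x)) ∧
    f.charpoly.map (algebraMap ℤ_[ℓ] ℚ_[ℓ]) = P.map (algebraMap ℚ ℚ_[ℓ]) ∧
    Nonempty (H ≃+ Λ ⧸ LinearMap.range (f - 1))

/-- Consequences of the theory of weights and of Gabber's theorem. -/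
structure IsWeights (F : ∀ (ℓ : ℕ) [Fact ℓ.Prime] (n : ℕ), End ℚ_[ℓ] (V ℓ n)) (P : ℕ → ℚ[X])
    (H : ∀ (ℓ : ℕ) [Fact ℓ.Prime], ℕ → ℤ → Type)
    [∀ (ℓ : ℕ) [Fact ℓ.Prime] n i, AddCommGroup (H ℓ n i)] : Prop where
  pure : ∀ (ℓ : ℕ) [Fact ℓ.Prime] (n : ℕ) (i : ℤ), i ≠ 2 * n → i ≠ 2 * n + 1 →
    ∀ h : H ℓ n i, IsTor h
  zero : ∀ (n : ℕ) (i : ℤ), i ≠ 2 * n → i ≠ 2 * n + 1 →
    {ℓ : ℕ | ∃ _ : Fact ℓ.Prime, ∃ h : H ℓ n i, h ≠ 0}.Finite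
  even : ∀ n : ℕ, {ℓ : ℕ | ∃ _ : Fact ℓ.Prime, ∃ h : H ℓ n (2 * n), h ≠ 0 ∧ IsTor h}.Finite
  odd : ∀ n : ℕ, {ℓ : ℕ | ∃ _ : Fact ℓ.Prime,
    ¬ Lattice ℓ (H ℓ n (2 * n + 1)) (V ℓ n) (F ℓ n) (P n)}.Finite

/-- Poincaré duality `B`, the product `deg` of `H^(2n)_W(X, ℤ(n))` and `H^(2n'+1)_W(X, ℤ(n'))` with
values in `ℤ`, and their compatibility. -/
structure IsDuality (d : ℕ) (κ : ∀ (ℓ : ℕ) [Fact ℓ.Prime] (n : ℕ) (i : ℤ), M n i →+ H ℓ n i)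
    (F : ∀ (ℓ : ℕ) [Fact ℓ.Prime] (n : ℕ), End ℚ_[ℓ] (V ℓ n))
    (α : ∀ (ℓ : ℕ) [Fact ℓ.Prime] (n : ℕ), H ℓ n (2 * n) →+ V ℓ n)
    (γ : ∀ (ℓ : ℕ) [Fact ℓ.Prime] (n : ℕ),
      H ℓ n (2 * n + 1) →+ V ℓ n ⧸ LinearMap.range (F ℓ n - 1))
    (B : ∀ (ℓ : ℕ) [Fact ℓ.Prime] (n n' : ℕ), V ℓ n →ₗ[ℚ_[ℓ]] V ℓ n' →ₗ[ℚ_[ℓ]] ℚ_[ℓ])
    (deg : ∀ n n', M n (2 * n) →+ M n' (2 * n' + 1) →+ ℤ) : Prop where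
  inv : ∀ (ℓ : ℕ) [Fact ℓ.Prime] (n n' : ℕ), n + n' = d → ∀ v w,
    B ℓ n n' (F ℓ n v) (F ℓ n' w) = B ℓ n n' v w
  nondeg : ∀ (ℓ : ℕ) [Fact ℓ.Prime] (n n' : ℕ), n + n' = d → ∀ v, (∀ w, B ℓ n n' v w = 0) → v = 0
  comm : ∀ (ℓ : ℕ) [Fact ℓ.Prime] (n n' : ℕ), n + n' = d → ∀ v w, B ℓ n n' v w = B ℓ n' n w v
  deg : ∀ (ℓ : ℕ) [Fact ℓ.Prime] (n n' : ℕ), n + n' = d → ∀ (x : M n (2 * n))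
    (y : M n' (2 * n' + 1)) (w : V ℓ n'), γ ℓ n' (κ ℓ n' _ y) = Submodule.Quotient.mk w →
      (deg n n' x y : ℚ_[ℓ]) = B ℓ n n' (α ℓ n (κ ℓ n _ x)) w

/-- The spaces `V ℓ n` for `n > d` and the invariants of `V ℓ 0`, and the powers `lefM`, `lefV` of the
Lefschetz operator (the hard Lefschetz theorem). -/
structure IsLefschetz (d : ℕ) (κ : ∀ (ℓ : ℕ) [Fact ℓ.Prime] (n : ℕ) (i : ℤ), M n i →+ H ℓ n i)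
    (F : ∀ (ℓ : ℕ) [Fact ℓ.Prime] (n : ℕ), End ℚ_[ℓ] (V ℓ n))
    (α : ∀ (ℓ : ℕ) [Fact ℓ.Prime] (n : ℕ), H ℓ n (2 * n) →+ V ℓ n)
    (lefM : ∀ n n', M n (2 * n) →+ M n' (2 * n'))
    (lefV : ∀ (ℓ : ℕ) [Fact ℓ.Prime] (n n' : ℕ), V ℓ n →ₗ[ℚ_[ℓ]] V ℓ n') : Prop where
  vanish : ∀ (ℓ : ℕ) [Fact ℓ.Prime] (n : ℕ), d < n → Subsingleton (V ℓ n)
  unit : ∀ (ℓ : ℕ) [Fact ℓ.Prime] (v : V ℓ 0), F ℓ 0 v = v →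
    v ∈ Submodule.span ℚ_[ℓ] (Set.range fun x => α ℓ 0 (κ ℓ 0 _ x))
  cl : ∀ (ℓ : ℕ) [Fact ℓ.Prime] (n n' : ℕ), n + n' = d → n ≤ n' → ∀ x,
    α ℓ n' (κ ℓ n' _ (lefM n n' x)) = lefV ℓ n n' (α ℓ n (κ ℓ n _ x))
  inv : ∀ (ℓ : ℕ) [Fact ℓ.Prime] (n n' : ℕ), n + n' = d → n ≤ n' → ∀ v,
    lefV ℓ n n' (F ℓ n v) = F ℓ n' (lefV ℓ n n' v)
  bij : ∀ (ℓ : ℕ) [Fact ℓ.Prime] (n n' : ℕ), n + n' = d → n ≤ n' →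
    Function.Bijective (lefV ℓ n n')

/-- `L^n(X)`: the groups `H^i_W(X, ℤ(n))` are finitely generated. -/
def LHolds (M : ℕ → ℤ → Type) [∀ n i, AddCommGroup (M n i)] (n : ℕ) : Prop :=
  ∀ i, AddGroup.FG (M n i)

/-- `K^n(X)`: the maps `H^i_W(X, ℤ(n)) ⊗ ℤ_ℓ → H^i(X, ℤ_ℓ(n))` are isomorphisms for all `ℓ` and `i`. -/
def KHolds (κ : ∀ (ℓ : ℕ) [Fact ℓ.Prime] (n : ℕ) (i : ℤ), M n i →+ H ℓ n i) (n : ℕ) : Prop :=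
  ∀ (ℓ : ℕ) [Fact ℓ.Prime] (i : ℤ), Function.Bijective (comp ℓ (κ ℓ n i))

/-- The maps `H^i_W(X, ℤ(n)) ⊗ ℚ_ℓ → H^i(X, ℚ_ℓ(n))` are isomorphisms for all `i`, for the prime `ℓ`. -/
def KQHolds (κ : ∀ (ℓ : ℕ) [Fact ℓ.Prime] (n : ℕ) (i : ℤ), M n i →+ H ℓ n i) (ℓ : ℕ)
    [Fact ℓ.Prime] (n : ℕ) : Prop :=
  ∀ i : ℤ, RatIso ℓ (κ ℓ n i)

/-- Tate's conjecture in codimension `n` for the prime `ℓ`: the invariants of `H^(2n)(X̄, ℚ_ℓ(n))` are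
spanned by the image of `H^(2n)_W(X, ℤ(n))` (that is, by the classes of cycles of codimension `n`). -/
def TateHolds (κ : ∀ (ℓ : ℕ) [Fact ℓ.Prime] (n : ℕ) (i : ℤ), M n i →+ H ℓ n i)
    (F : ∀ (ℓ : ℕ) [Fact ℓ.Prime] (n : ℕ), End ℚ_[ℓ] (V ℓ n))
    (α : ∀ (ℓ : ℕ) [Fact ℓ.Prime] (n : ℕ), H ℓ n (2 * n) →+ V ℓ n) (ℓ : ℕ)
    [Fact ℓ.Prime] (n : ℕ) : Prop :=
  ∀ v : V ℓ n, F ℓ n v = v → v ∈ Submodule.span ℚ_[ℓ] (Set.range fun x => α ℓ n (κ ℓ n _ x))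

/-- Elements of `H^(2n)_W(X, ℤ(n))` which are numerically equivalent to zero are torsion elements. -/
def NumHolds (e : ∀ (n : ℕ) (i j : ℤ), i + 1 = j → (M n i →+ M n j))
    (deg : ∀ n n', M n (2 * n) →+ M n' (2 * n' + 1) →+ ℤ) (n n' : ℕ) : Prop :=
  ∀ x : M n (2 * n), (∀ x' : M n' (2 * n'), deg n n' x (e n' (2 * n') (2 * n' + 1) rfl x') = 0) →
    IsTor x

lemma finite_primes {S : ∀ ℓ : ℕ, Fact ℓ.Prime → Prop}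
    (h : {ℓ : ℕ | ∃ hℓ : Fact ℓ.Prime, S ℓ hℓ}.Finite) :
    {ℓ : Nat.Primes | S ℓ (factPrimes ℓ)}.Finite := by
  apply (h.preimage (f := fun ℓ : Nat.Primes => (ℓ : ℕ)) ?_).subset
  · intro ℓ hℓ
    exact ⟨factPrimes ℓ, hℓ⟩
  · intro a _ b _ hab
    exact Subtype.ext hab

variable {d : ℕ} {κ : ∀ (ℓ : ℕ) [Fact ℓ.Prime] (n : ℕ) (i : ℤ), M n i →+ H ℓ n i}
    {e : ∀ (n : ℕ) (i j : ℤ), i + 1 = j → (M n i →+ M n j)}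
    {F : ∀ (ℓ : ℕ) [Fact ℓ.Prime] (n : ℕ), End ℚ_[ℓ] (V ℓ n)} {P : ℕ → ℚ[X]}
    {α : ∀ (ℓ : ℕ) [Fact ℓ.Prime] (n : ℕ), H ℓ n (2 * n) →+ V ℓ n}
    {γ : ∀ (ℓ : ℕ) [Fact ℓ.Prime] (n : ℕ),
      H ℓ n (2 * n + 1) →+ V ℓ n ⧸ LinearMap.range (F ℓ n - 1)}
    {B : ∀ (ℓ : ℕ) [Fact ℓ.Prime] (n n' : ℕ), V ℓ n →ₗ[ℚ_[ℓ]] V ℓ n' →ₗ[ℚ_[ℓ]] ℚ_[ℓ]}
    {deg : ∀ n n', M n (2 * n) →+ M n' (2 * n' + 1) →+ ℤ}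
    {lefM : ∀ n n', M n (2 * n) →+ M n' (2 * n')}
    {lefV : ∀ (ℓ : ℕ) [Fact ℓ.Prime] (n n' : ℕ), V ℓ n →ₗ[ℚ_[ℓ]] V ℓ n'}

/-- The system of groups, indexed by the type of primes. -/
noncomputable def sys (h1 : IsMotivic T κ e) (h2 : IsFrob F P α) (h3 : IsOdd κ e F α γ)
    (h4 : IsWeights F P H) (h5 : IsDuality d κ F α γ B deg)
    (h6 : IsLefschetz d κ F α lefM lefV) : WeilEtale d where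
  M := M
  H ℓ := H ℓ
  finH ℓ n i := h1.fin ℓ n i
  T ℓ := T ℓ
  V ℓ := V ℓ
  finV ℓ n := h2.fin ℓ n
  κ ℓ := κ ℓ
  kummer ℓ n i j h := (h1.kummer ℓ n i j h).some
  e := e
  e_exact := h1.exact
  F ℓ := F ℓ
  P := P
  P_monic := h2.monic
  mult ℓ := h2.mult ℓ
  α ℓ := α ℓ
  α_smul ℓ := h2.smul ℓ
  α_inv ℓ := h2.inv ℓ
  α_tor ℓ := h2.tor ℓ
  α_surj ℓ := h2.surj ℓ
  γ ℓ := γ ℓ
  γ_smul ℓ := h3.smul ℓ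
  γ_tor ℓ := h3.tor ℓ
  γ_surj ℓ := h3.surj ℓ
  γ_e ℓ := h3.comp ℓ
  pure ℓ := h4.pure ℓ
  pure_zero n i h h' := finite_primes (h4.zero n i h h')
  torsionfree n := finite_primes (h4.even n)
  lattice n := finite_primes (h4.odd n)
  B ℓ := B ℓ
  B_inv ℓ := h5.inv ℓ
  B_nondeg ℓ := h5.nondeg ℓ
  B_comm ℓ := h5.comm ℓ
  deg := deg
  deg_eq ℓ := h5.deg ℓ
  vanish ℓ := h6.vanish ℓ
  unit ℓ := h6.unit ℓ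
  lefM := lefM
  lefV ℓ := lefV ℓ
  lef_cl ℓ := h6.cl ℓ
  lef_inv ℓ := h6.inv ℓ
  lef_bij ℓ := h6.bij ℓ

/-- The theorem for a system indexed by the type of primes. -/
theorem main {d : ℕ} (X : WeilEtale d) :
    (∀ n : ℕ, 2 * n ≤ d ∨ d ≤ n →
      (X.L n ↔ X.K n) ∧ (X.L n ↔ ∃ ℓ : Nat.Primes, X.KQ ℓ n)) ∧
    (∀ n n' : ℕ, n + n' = d → ∀ ℓ : Nat.Primes, X.KQ ℓ n → X.Tate ℓ n' ∨ X.Num n n' → X.L n) ∧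
    ((∀ n, X.L n) ↔ ∀ n, ∃ ℓ : Nat.Primes, X.KQ ℓ n) := by
  have h1 : ∀ n : ℕ, 2 * n ≤ d ∨ d ≤ n → (X.L n ↔ X.K n) ∧ (X.L n ↔ ∃ ℓ : Nat.Primes, X.KQ ℓ n) := by
    intro n hn
    have h2 : X.L n → ∀ ℓ, X.KQ ℓ n := fun h => X.K_iff.1 (X.K_of_L h)
    refine ⟨⟨X.K_of_L, fun h => ?_⟩, ⟨fun h => ⟨⟨2, Nat.prime_two⟩, h2 h _⟩, ?_⟩⟩
    · exact WeilEtale.L_of_KQ hn (X.K_iff.1 h ⟨2, Nat.prime_two⟩)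
    · rintro ⟨ℓ, h⟩
      exact WeilEtale.L_of_KQ hn h
  have h2 : ∀ n n' : ℕ, n + n' = d → ∀ ℓ : Nat.Primes, X.KQ ℓ n → X.Tate ℓ n' ∨ X.Num n n' →
      X.L n := by
    intro n n' hd ℓ h hT
    rcases hT with hT | hT
    · exact WeilEtale.L_of_num hd h (WeilEtale.num_of_tate hd h hT)
    · exact WeilEtale.L_of_num hd h hT
  refine ⟨h1, h2, ⟨fun h n => ⟨⟨2, Nat.prime_two⟩, X.K_iff.1 (X.K_of_L (h n)) _⟩, fun h n => ?_⟩⟩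
  obtain ⟨ℓ, hℓ⟩ := h n
  by_cases hn : 2 * n ≤ d ∨ d ≤ n
  · exact (h1 n hn).2.2 ⟨ℓ, hℓ⟩
  · obtain ⟨n', rfl⟩ := Nat.exists_eq_add_of_le (show n ≤ d by omega)
    have h3 : X.L n' := (h1 n' (Or.inl (by omega))).2.2 (h n')
    exact h2 n n' rfl ℓ hℓ (Or.inl (X.tate_of_KQ (X.K_iff.1 (X.K_of_L h3) ℓ)))

end

end Pool.Agent.H860.WE
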